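import Mathlib

set_option autoImplicit false

/-!
The image of Cantor space under a continuous injection is perfect.
-/

namespace Pool.Agent.H623R2.VE

open Filter Topology

theorem perfect_range {X : Type*} [TopologicalSpace X] [T2Space X] (g : (ℕ → Bool) → X)
    (hc : Continuous g) (hi : Function.Injective g) :
    (Set.range g).Nonempty ∧ Perfect (Set.range g) := by
  refine ⟨Set.range_nonempty g, (isCompact_range hc).isClosed, ?_⟩
  rw [preperfect_iff_nhds]
  rintro _ ⟨A, rfl⟩ U hU
  have ht : Tendsto (fun n => Function.update A n (!A n)) atTop (𝓝 A) := by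
    rw [tendsto_pi_nhds]
    intro k
    have : (fun n => Function.update A n (!A n) k) =ᶠ[atTop] fun _ => A k := by
      filter_upwards [eventually_gt_atTop k] with n hn
      rw [Function.update_of_ne (Nat.ne_of_lt hn)]
    exact tendsto_const_nhds.congr' this.symm
  have h2 := (hc.tendsto A).comp ht
  obtain ⟨n, hn⟩ := (h2.eventually hU).exists
  refine ⟨_, ⟨hn, ⟨_, rfl⟩⟩, fun h => ?_⟩
  have := congrFun (hi h) n
  simp at this

end Pool.Agent.H623R2.VE
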