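import Pool.Agent.H623R2.VE.Build
import Pool.Agent.H565R2.FO2.USec

set_option autoImplicit false

/-!
Codes of structures, perfect sets, infinite disjoint powers, purely local queries.
-/

namespace Pool.Agent.H623R2.VE

open Set MeasureTheory

variable {Idx : Type} {a : Idx → ℕ}

/-- Codes of interpretations on the natural numbers. -/
abbrev Code {Idx : Type} (a : Idx → ℕ) : Type := (i : Idx) → (Fin (a i) → ℕ) → Bool

/-- The interpretation with a given code. -/
def toI (c : Code a) : Interp a ℕ := fun i t => c i t = true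

open Classical in
/-- The code of an interpretation. -/
noncomputable def ofI (I : Interp a ℕ) : Code a := fun i t => decide (I i t)

theorem toI_ofI (I : Interp a ℕ) : toI (ofI I) = I := by
  funext i t
  simp [toI, ofI]

theorem ofI_toI (c : Code a) : ofI (toI c) = c := by
  funext i t
  rw [Bool.eq_iff_iff]
  simp only [ofI, decide_eq_true_eq]
  exact Iff.rfl

/-- There is a perfect set of pairwise inequivalent members. -/
def Perf (E : Interp a ℕ → Interp a ℕ → Prop) (K : Set (Code a)) : Prop :=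
  ∃ f : (ℕ → Bool) → Code a, Continuous f ∧ (∀ x, f x ∈ K) ∧
    ∀ x x', E (toI (f x)) (toI (f x')) → x = x'

theorem perf_of_uncountable [Countable Idx] {E : Interp a ℕ → Interp a ℕ → Prop}
    {K : Set (Code a)}
    (hK : MeasurableSet K) {ι Z : Type} [Countable ι] [TopologicalSpace Z] [T2Space Z]
    [SecondCountableTopology Z] [MeasurableSpace Z] [BorelSpace Z]
    (J : ι → K → Z) (hJ : ∀ i, Measurable (J i))
    (hE : ∀ c c' : K, E (toI c.1) (toI c'.1) → ∀ i, ∃ j, J i c = J j c')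
    (hunc : ¬ {z | ∃ i c, J i c = z}.Countable) : Perf E K := by
  have : StandardBorelSpace K := hK.standardBorel
  obtain ⟨h, h1, h2⟩ := Pool.Agent.H565R2.FO2.perfect_of_uncountable (Y := K) (X := Code a)
    (Subtype.val) measurable_subtype_coe J hJ (fun y y' => E (toI y.1) (toI y'.1))
    (fun y y' h i => hE y y' h i) (by
      intro hc
      apply hunc
      refine hc.mono ?_
      rintro z ⟨i, c, rfl⟩
      exact mem_iUnion.2 ⟨i, ⟨c, rfl⟩⟩)
  refine ⟨fun x => (h x).1, h1, fun x => (h x).2, fun x x' h3 => ?_⟩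
  by_contra hne
  exact h2 x x' hne h3

/-- The same isomorphism types of components. -/
def CovE (I J : Interp a ℕ) : Prop := Cov I J ∧ Cov J I

theorem GIso.cov {I J : Interp a ℕ} (h : GIso I J) : Cov I J := by
  obtain ⟨g, hg⟩ := h
  exact fun m => ⟨g m, CEq.of_ciso (GIso.ciso g hg m)⟩

theorem GIso.covE {I J : Interp a ℕ} (h : GIso I J) : CovE I J := ⟨h.cov, h.symm.cov⟩

/-! ### Infinite disjoint powers -/

/-- The disjoint union of infinitely many copies. -/
def Pw (M : Interp a ℕ) : Interp a ℕ := fun i t =>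
  (∀ k l, (Nat.unpair (t k)).1 = (Nat.unpair (t l)).1) ∧ M i (fun k => (Nat.unpair (t k)).2)

theorem pull_pair (M : Interp a ℕ) (n : ℕ) : pull (Pw M) (Nat.pair n) = M := by
  funext i t
  apply propext
  simp [pull, Pw]

theorem adj_Pw {M : Interp a ℕ} {x y : ℕ} (h : Adj (Pw M) x y) :
    (Nat.unpair x).1 = (Nat.unpair y).1 := by
  obtain ⟨i, t, ⟨h1, _⟩, ⟨k, rfl⟩, ⟨l, rfl⟩⟩ := h
  exact h1 k l

theorem conn_Pw {M : Interp a ℕ} {x y : ℕ} (h : Conn (Pw M) x y) :
    (Nat.unpair x).1 = (Nat.unpair y).1 := by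
  induction h with
  | refl => rfl
  | tail _ h ih => exact ih.trans (adj_Pw h)

theorem ciso_Pw (M : Interp a ℕ) (n y : ℕ) : CIso M (Pw M) (Nat.pair n) y := by
  have h := pull_ciso (Pw M) (Nat.pair n) (fun y y' h => by
    have := congrArg Nat.unpair h
    simpa using this) (fun u x h => by
      have h1 := adj_Pw h
      simp only [Nat.unpair_pair] at h1
      exact ⟨(Nat.unpair x).2, by rw [h1, Nat.pair_unpair]⟩) y
  rwa [pull_pair] at h

theorem ceq_Pw (M : Interp a ℕ) (m : ℕ) : CEq (Pw M) m M (Nat.unpair m).2 := by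
  have h := (CEq.of_ciso (ciso_Pw M (Nat.unpair m).1 (Nat.unpair m).2)).symm
  rwa [Nat.pair_unpair] at h

theorem ceq_Pw' (M : Interp a ℕ) (n y : ℕ) : CEq M y (Pw M) (Nat.pair n y) :=
  CEq.of_ciso (ciso_Pw M n y)

theorem inf_Pw (M : Interp a ℕ) : Inf (Pw M) := by
  intro m F
  obtain ⟨n, hn⟩ := Infinite.exists_notMem_finset (F.image fun x => (Nat.unpair x).1)
  refine ⟨Nat.pair n (Nat.unpair m).2, (ceq_Pw M m).trans (ceq_Pw' M n _), fun x hx hc => hn ?_⟩
  have := conn_Pw hc
  simp only [Nat.unpair_pair] at this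
  exact Finset.mem_image.2 ⟨x, hx, this⟩

/-! ### Measurability of connectedness -/

theorem measurableSet_rel (i : Idx) (t : Fin (a i) → ℕ) :
    MeasurableSet {c : Code a | toI c i t} := by
  have h : Measurable fun c : Code a => c i t := (measurable_pi_apply t).comp (measurable_pi_apply i)
  exact h (measurableSet_singleton true)

theorem measurableSet_adj [Countable Idx] (x y : ℕ) :
    MeasurableSet {c : Code a | Adj (toI c) x y} := by
  have : {c : Code a | Adj (toI c) x y} = ⋃ i, ⋃ t : Fin (a i) → ℕ,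
      {c : Code a | toI c i t} ∩ {_c : Code a | x ∈ range t ∧ y ∈ range t} := by
    ext c; simp [Adj]
  rw [this]
  refine MeasurableSet.iUnion fun i => MeasurableSet.iUnion fun t => ?_
  exact (measurableSet_rel i t).inter (MeasurableSet.const _)

/-- Paths of a given length. -/
def Pth (I : Interp a ℕ) (x : ℕ) : ℕ → ℕ → Prop
  | 0, y => x = y
  | n + 1, y => ∃ z, Pth I x n z ∧ Adj I z y

theorem conn_iff_pth (I : Interp a ℕ) (x y : ℕ) : Conn I x y ↔ ∃ n, Pth I x n y := by
  constructor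
  · intro h
    induction h with
    | refl => exact ⟨0, rfl⟩
    | tail _ h ih =>
      obtain ⟨n, hn⟩ := ih
      exact ⟨n + 1, _, hn, h⟩
  · rintro ⟨n, hn⟩
    induction n generalizing y with
    | zero =>
      have : x = y := hn
      subst this
      exact Conn.refl I x
    | succ n ih =>
      obtain ⟨z, hz, h⟩ := hn
      exact (ih z hz).trans (Relation.ReflTransGen.single h)

theorem measurableSet_conn [Countable Idx] (x y : ℕ) :
    MeasurableSet {c : Code a | Conn (toI c) x y} := by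
  have h1 : ∀ n y, MeasurableSet {c : Code a | Pth (toI c) x n y} := by
    intro n
    induction n with
    | zero => intro y; exact MeasurableSet.const _
    | succ n ih =>
      intro y
      have : {c : Code a | Pth (toI c) x (n + 1) y} =
          ⋃ z, {c : Code a | Pth (toI c) x n z} ∩ {c : Code a | Adj (toI c) z y} := by
        ext c; simp [Pth]
      rw [this]
      exact MeasurableSet.iUnion fun z => (ih z).inter (measurableSet_adj z y)
  have : {c : Code a | Conn (toI c) x y} = ⋃ n, {c : Code a | Pth (toI c) x n y} := by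
    ext c; simp [conn_iff_pth]
  rw [this]
  exact MeasurableSet.iUnion fun n => h1 n y

/-! ### Local queries -/

/-- A query: a property of interpretations and assignments. -/
abbrev Query {Idx : Type} (a : Idx → ℕ) : Type := Interp a ℕ → (ℕ → ℕ) → Prop

/-- The values of the variables in `A` lie in one component, and some isomorphism of components
maps them to the values of the other assignment. -/
def GI (A : Finset ℕ) (I : Interp a ℕ) (v : ℕ → ℕ) (J : Interp a ℕ) (w : ℕ → ℕ) : Prop :=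
  (∀ i ∈ A, ∀ j ∈ A, Conn I (v i) (v j)) ∧ ∃ g : ℕ → ℕ, ∀ i ∈ A, CIso I J g (v i) ∧ g (v i) = w i

theorem GI.mono {A B : Finset ℕ} (hB : B ⊆ A) {I J : Interp a ℕ} {v w : ℕ → ℕ}
    (h : GI A I v J w) : GI B I v J w := by
  obtain ⟨h1, g, h2⟩ := h
  exact ⟨fun i hi j hj => h1 i (hB hi) j (hB hj), g, fun i hi => h2 i (hB hi)⟩

theorem GI.symm {A : Finset ℕ} {I J : Interp a ℕ} {v w : ℕ → ℕ} (h : GI A I v J w) :
    GI A J w I v := by
  obtain ⟨h1, g, h2⟩ := h
  rcases A.eq_empty_or_nonempty with rfl | ⟨i0, hi0⟩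
  · exact ⟨fun i hi => absurd hi (Finset.notMem_empty i), fun n => n,
      fun i hi => absurd hi (Finset.notMem_empty i)⟩
  · obtain ⟨h3, h4⟩ := h2 i0 hi0
    obtain ⟨g', h5, h6⟩ := h3.inverse
    have h7 : ∀ i ∈ A, Conn J (g (v i0)) (w i) := by
      intro i hi
      rw [← (h2 i hi).2]
      exact h3.map _ (h1 i0 hi0 i hi)
    refine ⟨fun i hi j hj => (h7 i hi).symm.trans (h7 j hj), g', fun i hi => ⟨?_, ?_⟩⟩
    · exact h5.move (h7 i hi)
    · rw [← (h2 i hi).2]
      exact h6 _ (h1 i0 hi0 i hi)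

/-- Purely local queries. -/
structure PLoc (A : Finset ℕ) (Θ : Query a) : Prop where
  conn : ∀ I v, Θ I v → ∀ i ∈ A, ∀ j ∈ A, Conn I (v i) (v j)
  tr : ∀ I v J w, GI A I v J w → Θ I v → Θ J w
  meas : ∀ v, MeasurableSet {c : Code a | Θ (toI c) v}

theorem PLoc.congr {A : Finset ℕ} {Θ : Query a} (h : PLoc A Θ)
    {I : Interp a ℕ} {v w : ℕ → ℕ} (hvw : ∀ i ∈ A, v i = w i) (hv : Θ I v) : Θ I w :=
  h.tr I v I w ⟨h.conn I v hv, fun n => n, fun i hi => ⟨CIso.id I (v i), hvw i hi⟩⟩ hv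

theorem PLoc.congr_iff {A : Finset ℕ} {Θ : Query a} (h : PLoc A Θ)
    {I : Interp a ℕ} {v w : ℕ → ℕ} (hvw : ∀ i ∈ A, v i = w i) : Θ I v ↔ Θ I w :=
  ⟨h.congr hvw, h.congr fun i hi => (hvw i hi).symm⟩

theorem PLoc.iff {A : Finset ℕ} {Θ : Query a} (h : PLoc A Θ)
    {I J : Interp a ℕ} {v w : ℕ → ℕ} (hG : GI A I v J w) : Θ I v ↔ Θ J w :=
  ⟨h.tr I v J w hG, h.tr J w I v hG.symm⟩

theorem PLoc.iso {A : Finset ℕ} {Θ : Query a} (hΘ : PLoc A Θ)
    {I J : Interp a ℕ} (g : ℕ ≃ ℕ)
    (hg : ∀ i (t : Fin (a i) → ℕ), I i t ↔ J i (fun k => g (t k)))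
    {v w : ℕ → ℕ} (hvw : ∀ i ∈ A, g (v i) = w i) : Θ I v ↔ Θ J w := by
  constructor
  · intro h
    exact hΘ.tr I v J w ⟨hΘ.conn I v h, g, fun i hi => ⟨GIso.ciso g hg (v i), hvw i hi⟩⟩ h
  · intro h
    have hg' : ∀ i (t : Fin (a i) → ℕ), J i t ↔ I i (fun k => g.symm (t k)) := by
      intro i t
      rw [hg]
      simp
    refine hΘ.tr J w I v ⟨hΘ.conn J w h, g.symm, fun i hi => ⟨GIso.ciso g.symm hg' (w i), ?_⟩⟩ h
    rw [← hvw i hi, Equiv.symm_apply_apply]

open Classical in
/-- The local type. -/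
noncomputable def ltp (G : Set (Finset ℕ × Query a)) (c : Finset ℕ) (I : Interp a ℕ)
    (v : ℕ → ℕ) : G → Bool := fun p => decide (p.1.1 ⊆ c ∧ p.1.2 I v)

theorem ltp_meas {G : Set (Finset ℕ × Query a)}
    (hG : ∀ p ∈ G, PLoc p.1 p.2) (c : Finset ℕ) (v : ℕ → ℕ) :
    Measurable fun m : Code a => ltp G c (toI m) v := by
  classical
  refine measurable_pi_lambda _ fun p => ?_
  refine measurable_to_bool ?_
  have : (fun m : Code a => ltp G c (toI m) v p) ⁻¹' {true} =
      {m : Code a | p.1.1 ⊆ c} ∩ {m | p.1.2 (toI m) v} := by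
    ext m
    simp [ltp]
  rw [this]
  exact (MeasurableSet.const _).inter ((hG p.1 p.2).meas v)

theorem ltp_eq_iff {G : Set (Finset ℕ × Query a)} {c : Finset ℕ} {I J : Interp a ℕ}
    {v w : ℕ → ℕ} : ltp G c I v = ltp G c J w ↔ ∀ p ∈ G, p.1 ⊆ c → (p.2 I v ↔ p.2 J w) := by
  classical
  constructor
  · intro h p hp hc
    have h1 := congrFun h ⟨p, hp⟩
    simp only [ltp, decide_eq_decide] at h1
    simpa [hc] using h1
  · intro h
    funext p
    rw [ltp, ltp, decide_eq_decide]
    constructor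
    · rintro ⟨h1, h2⟩
      exact ⟨h1, (h p.1 p.2 h1).1 h2⟩
    · rintro ⟨h1, h2⟩
      exact ⟨h1, (h p.1 p.2 h1).2 h2⟩

theorem ltp_of_GI {G : Set (Finset ℕ × Query a)} (hG : ∀ p ∈ G, PLoc p.1 p.2) {c : Finset ℕ}
    {I J : Interp a ℕ} {v w : ℕ → ℕ} (h : GI c I v J w) : ltp G c I v = ltp G c J w :=
  ltp_eq_iff.2 fun p hp hc => (hG p hp).iff (h.mono hc)

theorem ltp_congr {G : Set (Finset ℕ × Query a)} (hG : ∀ p ∈ G, PLoc p.1 p.2) {c : Finset ℕ}
    {I : Interp a ℕ} {v w : ℕ → ℕ} (h : ∀ i ∈ c, v i = w i) : ltp G c I v = ltp G c I w :=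
  ltp_eq_iff.2 fun p hp hc => (hG p hp).congr_iff fun i hi => h i (hc hi)

/-- Extension of an assignment by zero. -/
def ext0 (F : Finset ℕ) (w : F → ℕ) : ℕ → ℕ := fun i => if h : i ∈ F then w ⟨i, h⟩ else 0

theorem ext0_mem {F : Finset ℕ} {w : F → ℕ} {i : ℕ} (h : i ∈ F) : ext0 F w i = w ⟨i, h⟩ := by
  rw [ext0, dif_pos h]

/-- The values of the local types of connected tuples in the members of `K`. -/
def lval (K : Set (Code a)) (G : Set (Finset ℕ × Query a)) (c : Finset ℕ) : Set (G → Bool) :=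
  {ρ | ∃ w : c → ℕ, ∃ m ∈ K, (∀ i j, Conn (toI m) (w i) (w j)) ∧
    ltp G c (toI m) (ext0 c w) = ρ}

theorem lval_countable [Countable Idx] {K : Set (Code a)} (hK : MeasurableSet K)
    (hP : ¬ Perf CovE K) {G : Set (Finset ℕ × Query a)} (hGc : G.Countable)
    (hG : ∀ p ∈ G, PLoc p.1 p.2) {c : Finset ℕ} (hne : c.Nonempty) :
    (lval K G c).Countable := by
  classical
  have : Countable G := hGc.to_subtype
  by_contra hc
  let J : Option (c → ℕ) → K → (G → Bool) := fun o m => o.elim (fun _ => false)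
    (fun w => if (∀ i j, Conn (toI m.1) (w i) (w j)) then ltp G c (toI m.1) (ext0 c w)
      else fun _ => false)
  refine hP (perf_of_uncountable hK (ι := Option (c → ℕ)) (Z := G → Bool) J ?_ ?_ ?_)
  · rintro (_ | w)
    · exact measurable_const
    · refine Measurable.ite ?_ ((ltp_meas hG c _).comp measurable_subtype_coe) measurable_const
      have e : {m : K | ∀ i j, Conn (toI m.1) (w i) (w j)} =
          ⋂ i, ⋂ j, {m : K | Conn (toI m.1) (w i) (w j)} := by
        ext m; simp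
      rw [e]
      exact MeasurableSet.iInter fun i => MeasurableSet.iInter fun j =>
        measurable_subtype_coe (measurableSet_conn (w i) (w j))
  · rintro m m' hE (_ | w)
    · exact ⟨none, rfl⟩
    · by_cases hw : ∀ i j, Conn (toI m.1) (w i) (w j)
      · obtain ⟨i0, hi0⟩ := hne
        obtain ⟨_, g, hg, _⟩ := hE.1 (w ⟨i0, hi0⟩)
        refine ⟨some fun i => g (w i), ?_⟩
        have hw' : ∀ i j, Conn (toI m'.1) (g (w i)) (g (w j)) := fun i j =>
          (hg.map _ (hw _ i)).symm.trans (hg.map _ (hw _ j))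
        simp only [J, Option.elim_some, if_pos hw, if_pos hw']
        refine ltp_of_GI hG ⟨fun i hi j hj => ?_, g, fun i hi => ⟨?_, ?_⟩⟩
        · rw [ext0_mem hi, ext0_mem hj]
          exact hw _ _
        · rw [ext0_mem hi]
          exact hg.move (hw _ _)
        · rw [ext0_mem hi, ext0_mem hi]
      · exact ⟨none, by simp only [J, Option.elim_some, Option.elim_none, if_neg hw]⟩
  · intro h
    apply hc
    refine h.mono ?_
    rintro ρ ⟨w, m, hm, hw, rfl⟩
    exact ⟨some w, ⟨m, hm⟩, by simp only [J, Option.elim_some, if_pos hw]⟩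

/-- Structures all of whose components occur in the members of `K`, with infinite
multiplicities. -/
structure Dom (K : Set (Code a)) (N : Interp a ℕ) : Prop where
  cov : ∀ m, ∃ c ∈ K, ∃ b, CEq N m (toI c) b
  inf : Inf N

theorem lval_mem {K : Set (Code a)} {G : Set (Finset ℕ × Query a)} (hG : ∀ p ∈ G, PLoc p.1 p.2)
    {c : Finset ℕ} (hne : c.Nonempty) {N : Interp a ℕ} (hN : Dom K N) {v : ℕ → ℕ}
    (hv : ∀ i ∈ c, ∀ j ∈ c, Conn N (v i) (v j)) : ltp G c N v ∈ lval K G c := by
  obtain ⟨i0, hi0⟩ := hne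
  obtain ⟨m, hm, b, g, hg, _⟩ := hN.cov (v i0)
  refine ⟨fun j => g (v j), m, hm, fun i j => ?_, ?_⟩
  · exact (hg.map _ (hv i0 hi0 i.1 i.2)).symm.trans (hg.map _ (hv i0 hi0 j.1 j.2))
  symm
  refine ltp_of_GI hG ⟨hv, g, fun i hi => ⟨hg.move (hv i0 hi0 i hi), ?_⟩⟩
  rw [ext0_mem hi]

end Pool.Agent.H623R2.VE
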