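import Mathlib

set_option autoImplicit false

/-!
Components of relational structures (connected components of the Gaifman graph), and isomorphisms
of components. The relation symbols are the elements of `Idx`, `a i` is the arity of `i`.
-/

namespace Pool.Agent.H623R2.VE

open Set

/-- An interpretation on `M` of relation symbols `i : ℕ` of arity `a i`. -/
abbrev Interp {Idx : Type} (a : Idx → ℕ) (M : Type) : Type :=
  ∀ i : Idx, (Fin (a i) → M) → Prop

variable {Idx : Type} {a : Idx → ℕ} {M M' M'' : Type}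

/-- `x` and `y` occur in a common tuple of some relation. -/
def Adj (I : Interp a M) (x y : M) : Prop :=
  ∃ i, ∃ t : Fin (a i) → M, I i t ∧ x ∈ range t ∧ y ∈ range t

/-- `x` and `y` lie in the same connected component of the Gaifman graph. -/
def Conn (I : Interp a M) (x y : M) : Prop := Relation.ReflTransGen (Adj I) x y

theorem Adj.symm {I : Interp a M} {x y : M} (h : Adj I x y) : Adj I y x := by
  obtain ⟨i, t, h1, h2, h3⟩ := h
  exact ⟨i, t, h1, h3, h2⟩

theorem Conn.refl (I : Interp a M) (x : M) : Conn I x x := Relation.ReflTransGen.refl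

theorem Conn.symm {I : Interp a M} {x y : M} (h : Conn I x y) : Conn I y x := by
  induction h with
  | refl => exact Conn.refl I x
  | tail _ h ih => exact Relation.ReflTransGen.head h.symm ih

theorem Conn.trans {I : Interp a M} {x y z : M} (h : Conn I x y) (h' : Conn I y z) :
    Conn I x z := Relation.ReflTransGen.trans h h'

theorem conn_tuple {I : Interp a M} {i : Idx} {t : Fin (a i) → M} (h : I i t)
    (k l : Fin (a i)) : Conn I (t k) (t l) :=
  Relation.ReflTransGen.single ⟨i, t, h, ⟨k, rfl⟩, ⟨l, rfl⟩⟩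

/-- `g` maps the component of `x` isomorphically onto the component of `g x` (and the relations of
arity `0` agree). -/
structure CIso (I : Interp a M) (J : Interp a M') (g : M → M') (c : M) : Prop where
  inj : ∀ x y, Conn I c x → Conn I c y → g x = g y → x = y
  map : ∀ x, Conn I c x → Conn J (g c) (g x)
  surj : ∀ y, Conn J (g c) y → ∃ x, Conn I c x ∧ g x = y
  rel : ∀ i (t : Fin (a i) → M), (∀ k, Conn I c (t k)) →
    (I i t ↔ J i (fun k => g (t k)))

namespace CIso

variable {I : Interp a M} {J : Interp a M'} {K : Interp a M''} {g : M → M'} {g' : M' → M''}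
  {c b : M}

theorem id (I : Interp a M) (c : M) : CIso I I (fun x => x) c where
  inj _ _ _ _ h := h
  map _ h := h
  surj y h := ⟨y, h, rfl⟩
  rel _ _ _ := Iff.rfl

theorem comp (h : CIso I J g c) (h' : CIso J K g' (g c)) : CIso I K (fun x => g' (g x)) c where
  inj x y hx hy e := h.inj x y hx hy (h'.inj _ _ (h.map x hx) (h.map y hy) e)
  map x hx := h'.map _ (h.map x hx)
  surj z hz := by
    obtain ⟨y, hy, rfl⟩ := h'.surj z hz
    obtain ⟨x, hx, rfl⟩ := h.surj y hy
    exact ⟨x, hx, rfl⟩
  rel i t ht := (h.rel i t ht).trans (h'.rel i _ fun k => h.map _ (ht k))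

theorem move (h : CIso I J g c) (hab : Conn I c b) : CIso I J g b where
  inj x y hx hy e := h.inj x y (hab.trans hx) (hab.trans hy) e
  map x hx := (h.map b hab).symm.trans (h.map x (hab.trans hx))
  surj y hy := by
    obtain ⟨x, hx, rfl⟩ := h.surj y ((h.map b hab).trans hy)
    exact ⟨x, hab.symm.trans hx, rfl⟩
  rel i t ht := h.rel i t fun k => hab.trans (ht k)

theorem inverse (h : CIso I J g c) : ∃ g' : M' → M, CIso J I g' (g c) ∧
    ∀ x, Conn I c x → g' (g x) = x := by
  classical
  let g' : M' → M := fun y => if hy : Conn J (g c) y then (h.surj y hy).choose else c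
  have h1 : ∀ y, Conn J (g c) y → Conn I c (g' y) ∧ g (g' y) = y := by
    intro y hy
    have := (h.surj y hy).choose_spec
    simp only [g', dif_pos hy]
    exact this
  have h2 : ∀ x, Conn I c x → g' (g x) = x := by
    intro x hx
    obtain ⟨h3, h4⟩ := h1 (g x) (h.map x hx)
    exact h.inj _ _ h3 hx h4
  have h3 : g' (g c) = c := h2 c (Conn.refl I c)
  refine ⟨g', ⟨?_, ?_, ?_, ?_⟩, h2⟩
  · intro x y hx hy e
    rw [← (h1 x hx).2, ← (h1 y hy).2, e]
  · intro x hx
    rw [h3]
    exact (h1 x hx).1
  · intro y hy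
    rw [h3] at hy
    exact ⟨g y, h.map y hy, h2 y hy⟩
  · intro i t ht
    rw [h.rel i (fun k => g' (t k)) (fun k => (h1 _ (ht k)).1)]
    have : (fun k => g (g' (t k))) = t := by
      funext k
      exact (h1 _ (ht k)).2
    rw [this]

end CIso

/-- The components of `c` and `b` are isomorphic. -/
def CEq (I : Interp a M) (c : M) (J : Interp a M') (b : M') : Prop :=
  ∃ g, CIso I J g c ∧ Conn J (g c) b

namespace CEq

variable {I : Interp a M} {J : Interp a M'} {K : Interp a M''} {x x' : M} {b b' : M'} {c : M''}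

theorem refl (I : Interp a M) (x : M) : CEq I x I x := ⟨_, CIso.id I x, Conn.refl I x⟩

theorem of_conn (h : Conn I x x') : CEq I x I x' := ⟨_, CIso.id I x, h⟩

theorem trans (h : CEq I x J b) (h' : CEq J b K c) : CEq I x K c := by
  obtain ⟨g, h1, h2⟩ := h
  obtain ⟨g', h3, h4⟩ := h'
  have h5 := h3.move h2.symm
  exact ⟨_, h1.comp h5, (h5.map _ h2).trans h4⟩

theorem symm (h : CEq I x J b) : CEq J b I x := by
  obtain ⟨g, h1, h2⟩ := h
  obtain ⟨g', h3, h4⟩ := h1.inverse
  refine ⟨g', h3.move h2, ?_⟩
  have h5 := h3.map b h2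
  rw [h4 x (Conn.refl I x)] at h5
  exact h5.symm

theorem of_ciso {g : M → M'} (h : CIso I J g x) : CEq I x J (g x) := ⟨g, h, Conn.refl _ _⟩

end CEq

/-- Pulling back an interpretation. -/
def pull (I : Interp a M) (e : M' → M) : Interp a M' := fun i t => I i (fun k => e (t k))

/-- Pulling back along an injection onto a union of components. -/
theorem pull_ciso (I : Interp a M) (e : M' → M) (he : Function.Injective e)
    (hc : ∀ u x, Adj I (e u) x → x ∈ range e) (u : M') : CIso (pull I e) I e u := by
  have hmap : ∀ v w, Conn (pull I e) v w → Conn I (e v) (e w) := by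
    intro v w h
    induction h with
    | refl => exact Conn.refl I _
    | tail _ h ih =>
      refine ih.trans (Relation.ReflTransGen.single ?_)
      obtain ⟨i, t, h1, ⟨k, hk⟩, ⟨l, hl⟩⟩ := h
      exact ⟨i, fun k => e (t k), h1, ⟨k, by rw [← hk]⟩, ⟨l, by rw [← hl]⟩⟩
  have hadj : ∀ v w, Adj I (e v) (e w) → Adj (pull I e) v w := by
    rintro v w ⟨i, t, h1, ⟨k, hk⟩, ⟨l, hl⟩⟩
    have h2 : ∀ m, ∃ z, e z = t m := fun m =>
      hc v (t m) ⟨i, t, h1, ⟨k, hk⟩, ⟨m, rfl⟩⟩
    choose s hs using h2
    refine ⟨i, s, ?_, ⟨k, he (by rw [hs, hk])⟩, ⟨l, he (by rw [hs, hl])⟩⟩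
    show I i (fun k => e (s k))
    have : (fun k => e (s k)) = t := funext hs
    rw [this]
    exact h1
  refine ⟨fun x y _ _ h => he h, fun x hx => hmap u x hx, ?_, fun i t _ => Iff.rfl⟩
  intro y hy
  induction hy with
  | refl => exact ⟨u, Conn.refl _ _, rfl⟩
  | @tail y z _ h ih =>
    obtain ⟨x, hx, rfl⟩ := ih
    obtain ⟨w, rfl⟩ := hc x z h
    exact ⟨w, hx.trans (Relation.ReflTransGen.single (hadj x w h)), rfl⟩

theorem pull_conn (I : Interp a M) (e : M' → M) (he : Function.Injective e)
    (hc : ∀ u x, Adj I (e u) x → x ∈ range e) (u v : M') :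
    Conn (pull I e) u v ↔ Conn I (e u) (e v) := by
  refine ⟨fun h => (pull_ciso I e he hc u).map v h, fun h => ?_⟩
  obtain ⟨x, hx, h2⟩ := (pull_ciso I e he hc u).surj _ h
  rw [← he h2]
  exact hx

/-- Global isomorphisms. -/
def GIso (I : Interp a M) (J : Interp a M') : Prop :=
  ∃ g : M ≃ M', ∀ i (t : Fin (a i) → M), I i t ↔ J i (fun k => g (t k))

theorem GIso.refl (I : Interp a M) : GIso I I := ⟨Equiv.refl M, fun _ _ => Iff.rfl⟩

theorem GIso.symm {I : Interp a M} {J : Interp a M'} (h : GIso I J) : GIso J I := by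
  obtain ⟨g, hg⟩ := h
  refine ⟨g.symm, fun i t => ?_⟩
  rw [hg]
  simp

theorem GIso.trans {I : Interp a M} {J : Interp a M'} {K : Interp a M''} (h : GIso I J)
    (h' : GIso J K) : GIso I K := by
  obtain ⟨g, hg⟩ := h
  obtain ⟨g', hg'⟩ := h'
  exact ⟨g.trans g', fun i t => (hg i t).trans (hg' i _)⟩

theorem GIso.ciso {I : Interp a M} {J : Interp a M'} (g : M ≃ M')
    (hg : ∀ i (t : Fin (a i) → M), I i t ↔ J i (fun k => g (t k))) (x : M) :
    CIso I J g x := by
  have e : I = pull J g := by
    funext i t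
    exact propext (hg i t)
  rw [e]
  exact pull_ciso J g g.injective (fun u x _ => g.surjective x) x

theorem GIso.conn_iff {I : Interp a M} {J : Interp a M'} (g : M ≃ M')
    (hg : ∀ i (t : Fin (a i) → M), I i t ↔ J i (fun k => g (t k))) (x y : M) :
    Conn I x y ↔ Conn J (g x) (g y) := by
  refine ⟨fun h => (GIso.ciso g hg x).map y h, fun h => ?_⟩
  obtain ⟨z, hz, e⟩ := (GIso.ciso g hg x).surj _ h
  rw [← g.injective e]
  exact hz

/-- The setoid of components. -/
def compSetoid (I : Interp a M) : Setoid M := ⟨Conn I, fun x => Conn.refl I x, Conn.symm,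
  Conn.trans⟩

/-- The set of components. -/
abbrev Comp (I : Interp a M) : Type := Quotient (compSetoid I)

/-- Gluing isomorphisms of components. -/
theorem glue [Nonempty M] {I : Interp a M} {J : Interp a M'} (e : Comp I ≃ Comp J)
    (he : ∀ q : Comp I, CEq I q.out J (e q).out) : GIso I J := by
  classical
  choose g hg hg' using he
  let mk : M → Comp I := fun x => Quotient.mk (compSetoid I) x
  let mk' : M' → Comp J := fun x => Quotient.mk (compSetoid J) x
  have hmk : ∀ x y, mk x = mk y ↔ Conn I x y := fun x y => Quotient.eq (r := compSetoid I)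
  have hmk' : ∀ x y, mk' x = mk' y ↔ Conn J x y := fun x y => Quotient.eq (r := compSetoid J)
  have hout : ∀ q, mk q.out = q := fun q => Quotient.out_eq q
  have hout' : ∀ q, mk' q.out = q := fun q => Quotient.out_eq q
  have hx : ∀ x, Conn I (mk x).out x := fun x => (hmk _ _).1 (hout _)
  let G : M → M' := fun x => g (mk x) x
  have hG : ∀ x, mk' (G x) = e (mk x) := by
    intro x
    rw [← hout' (e (mk x)), hmk']
    exact ((hg (mk x)).map x (hx x)).symm.trans (hg' (mk x))
  have hGc : ∀ x y, Conn I x y → G y = g (mk x) y := by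
    intro x y h
    show g (mk y) y = g (mk x) y
    rw [(hmk x y).2 h]
  have hinj : Function.Injective G := by
    intro x y h
    have h1 : mk x = mk y := e.injective (by rw [← hG, ← hG, h])
    have h2 : Conn I x y := (hmk x y).1 h1
    have h3 : g (mk x) x = g (mk x) y := by
      rw [← hGc x y h2]
      exact h
    exact (hg (mk x)).inj x y (hx x) ((hx x).trans h2) h3
  have hsurj : Function.Surjective G := by
    intro y
    let q := e.symm (mk' y)
    have h1 : Conn J (g q q.out) y := by
      refine (hg' q).trans ((hmk' _ _).1 ?_)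
      rw [hout', Equiv.apply_symm_apply]
    obtain ⟨x, hx1, hx2⟩ := (hg q).surj y h1
    have h2 : mk x = q := by
      rw [← hout q, hmk]
      exact hx1.symm
    refine ⟨x, ?_⟩
    show g (mk x) x = y
    rw [h2]
    exact hx2
  refine ⟨Equiv.ofBijective G ⟨hinj, hsurj⟩, ?_⟩
  intro i t
  show I i t ↔ J i (fun k => G (t k))
  have key : ∀ x, (∀ k, Conn I x (t k)) → (I i t ↔ J i (fun k => G (t k))) := by
    intro x h
    rw [(hg (mk x)).rel i t (fun k => (hx x).trans (h k))]
    have : (fun k => G (t k)) = fun k => g (mk x) (t k) := by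
      funext k
      exact hGc x _ (h k)
    rw [this]
  rcases isEmpty_or_nonempty (Fin (a i)) with hE | ⟨⟨k0⟩⟩
  · exact key (Classical.arbitrary M) (fun k => (hE.false k).elim)
  · constructor
    · intro h
      exact (key (t k0) (fun k => conn_tuple h k0 k)).1 h
    · intro h
      refine (key (t k0) (fun k => ?_)).2 h
      have h1 : Conn J (G (t k0)) (G (t k)) := conn_tuple h k0 k
      rw [← hmk', hG, hG] at h1
      exact (hmk _ _).1 (e.injective h1)

/-- The relations of arity `0` agree. -/
def NullEq (I : Interp a M) (J : Interp a M') : Prop :=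
  ∀ i, IsEmpty (Fin (a i)) → ∀ (t : Fin (a i) → M) (t' : Fin (a i) → M'), I i t ↔ J i t'

theorem CIso.nullEq {I : Interp a M} {J : Interp a M'} {g : M → M'} {x : M}
    (h : CIso I J g x) : NullEq I J := by
  intro i hE t t'
  rw [h.rel i t (fun k => (hE.false k).elim)]
  have : (fun k => g (t k)) = t' := by
    funext k
    exact (hE.false k).elim
  rw [this]

theorem CEq.nullEq {I : Interp a M} {J : Interp a M'} {x : M} {b : M'} (h : CEq I x J b) :
    NullEq I J := by
  obtain ⟨g, h1, _⟩ := h
  exact h1.nullEq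

end Pool.Agent.H623R2.VE
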