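import Pool.Agent.H623R2.VE.Forc

set_option autoImplicit false
set_option linter.unusedSectionVars false

/-!
The isomorphism types of the components of the members of an invariant Borel class closed under
infinite disjoint powers.
-/

namespace Pool.Agent.H623R2.VE

open Set MeasureTheory

variable {Idx : Type} [Countable Idx] {a : Idx → ℕ}

open Classical in
/-- The local type of an element. -/
noncomputable def ty (G : Set (Finset ℕ × Query a)) (I : Interp a ℕ) (b : ℕ) : G → Bool :=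
  fun p => decide (p.1.2 I (fun _ => b))

theorem ty_of_ciso {G : Set (Finset ℕ × Query a)} (hG : ∀ p ∈ G, PLoc p.1 p.2)
    {I J : Interp a ℕ} {g : ℕ → ℕ} {b : ℕ} (h : CIso I J g b) : ty G I b = ty G J (g b) := by
  funext p
  rw [ty, ty, decide_eq_decide]
  exact (hG p.1 p.2).iff ⟨fun _ _ _ _ => Conn.refl _ _, g, fun i _ => ⟨h, rfl⟩⟩

theorem ty_meas {G : Set (Finset ℕ × Query a)} (hG : ∀ p ∈ G, PLoc p.1 p.2) (b : ℕ) :
    Measurable fun c : Code a => ty G (toI c) b := by
  refine measurable_pi_lambda _ fun p => measurable_to_bool ?_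
  have : (fun c : Code a => ty G (toI c) b p) ⁻¹' {true} = {c | p.1.2 (toI c) (fun _ => b)} := by
    ext c
    simp [ty]
  rw [this]
  exact (hG p.1 p.2).meas _

open Classical in
/-- The set of the types of elements, and the relations of arity `0`. -/
noncomputable def prof (G : Set (Finset ℕ × Query a)) (V : Set (G → Bool)) (I : Interp a ℕ) :
    (V → Bool) × (Idx → Bool) :=
  (fun ρ => decide (∃ b, ty G I b = ρ.1),
    fun i => decide (∃ t : Fin (a i) → ℕ, IsEmpty (Fin (a i)) ∧ I i t))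

theorem prof_meas {G : Set (Finset ℕ × Query a)} (hGc : G.Countable)
    (hG : ∀ p ∈ G, PLoc p.1 p.2) (V : Set (G → Bool)) :
    Measurable fun c : Code a => prof G V (toI c) := by
  classical
  have : Countable G := hGc.to_subtype
  refine Measurable.prodMk ?_ ?_
  · refine measurable_pi_lambda _ fun ρ => measurable_to_bool ?_
    have e1 : (fun c : Code a => decide (∃ b, ty G (toI c) b = ρ.1)) ⁻¹' {true} =
        ⋃ b, {c | ty G (toI c) b = ρ.1} := by
      ext c
      simp
    rw [e1]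
    exact MeasurableSet.iUnion fun b => ty_meas hG b (measurableSet_singleton ρ.1)
  · refine measurable_pi_lambda _ fun i => measurable_to_bool ?_
    have e1 : (fun c : Code a => decide (∃ t : Fin (a i) → ℕ, IsEmpty (Fin (a i)) ∧
        toI c i t)) ⁻¹' {true} = ⋃ t : Fin (a i) → ℕ, ({_c | IsEmpty (Fin (a i))} ∩
          {c | toI c i t}) := by
      ext c
      simp
    rw [e1]
    exact MeasurableSet.iUnion fun t => (MeasurableSet.const _).inter (measurableSet_rel i t)

theorem prof_cov {G : Set (Finset ℕ × Query a)} (hG : ∀ p ∈ G, PLoc p.1 p.2)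
    (V : Set (G → Bool)) {I J : Interp a ℕ} (h : CovE I J) : prof G V I = prof G V J := by
  classical
  have h1 : ∀ {I J : Interp a ℕ}, Cov I J → ∀ ρ, (∃ b, ty G I b = ρ) → ∃ b, ty G J b = ρ := by
    rintro I J h ρ ⟨b, hb⟩
    obtain ⟨_, g, hg, _⟩ := h b
    exact ⟨g b, by rw [← ty_of_ciso hG hg, hb]⟩
  refine Prod.ext ?_ ?_
  · funext ρ
    simp only [prof]
    rw [decide_eq_decide]
    exact ⟨h1 h.1 _, h1 h.2 _⟩
  · funext i
    simp only [prof]
    rw [decide_eq_decide]
    obtain ⟨b, hb⟩ := h.1 0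
    have h2 := hb.nullEq
    constructor
    · rintro ⟨t, ht, h⟩
      exact ⟨t, ht, (h2 i ht t t).1 h⟩
    · rintro ⟨t, ht, h⟩
      exact ⟨t, ht, (h2 i ht t t).2 h⟩

theorem prof_null {G : Set (Finset ℕ × Query a)} (V : Set (G → Bool)) {I J : Interp a ℕ}
    (h : prof G V I = prof G V J) : NullEq I J := by
  intro i hE t t'
  have h1 := congrFun (congrArg Prod.snd h) i
  simp only [prof, decide_eq_decide] at h1
  have e1 : ∀ s : Fin (a i) → ℕ, s = t := fun s => funext fun k => (hE.false k).elim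
  have e2 : ∀ s : Fin (a i) → ℕ, s = t' := fun s => funext fun k => (hE.false k).elim
  constructor
  · intro h2
    obtain ⟨s, _, hs⟩ := h1.1 ⟨t, hE, h2⟩
    rwa [e2 s] at hs
  · intro h2
    obtain ⟨s, _, hs⟩ := h1.2 ⟨t', hE, h2⟩
    rwa [e1 s] at hs

theorem dom_Pw {K : Set (Code a)} {c : Code a} (hc : c ∈ K) : Dom K (Pw (toI c)) :=
  ⟨fun m => ⟨c, hc, _, ceq_Pw (toI c) m⟩, inf_Pw _⟩

/-- Local types are values of types in members of `K`. -/
def tyv (K : Set (Code a)) (G : Set (Finset ℕ × Query a)) : Set (G → Bool) :=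
  {ρ | ∃ b, ∃ c ∈ K, ty G (toI c) b = ρ}

theorem tyv_countable {K : Set (Code a)} (hK : MeasurableSet K) (hP : ¬ Perf CovE K)
    {G : Set (Finset ℕ × Query a)} (hGc : G.Countable) (hG : ∀ p ∈ G, PLoc p.1 p.2) :
    (tyv K G).Countable := by
  have : Countable G := hGc.to_subtype
  by_contra hc
  refine hP (perf_of_uncountable hK (ι := ℕ) (Z := G → Bool)
    (fun b m => ty G (toI m.1) b)
    (fun b => (ty_meas hG b).comp measurable_subtype_coe) ?_ ?_)
  · intro m m' hE b
    obtain ⟨_, g, hg, _⟩ := hE.1 b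
    exact ⟨g b, ty_of_ciso hG hg⟩
  · intro h
    apply hc
    refine h.mono ?_
    rintro ρ ⟨b, m, hm, rfl⟩
    exact ⟨b, ⟨m, hm⟩, rfl⟩

/-- The members of `K` with a given profile have only countably many isomorphism types of
components. -/
theorem countable_types {K : Set (Code a)} (hP : ¬ Perf CovE K)
    (hpw : ∀ c ∈ K, ofI (Pw (toI c)) ∈ K) {G : Set (Finset ℕ × Query a)}
    (hG : ∀ p ∈ G, PLoc p.1 p.2)
    (hdet : ∀ I J v w, Dom K I → Dom K J → Same G ∅ I v J w → ofI I ∈ K → ofI J ∈ K)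
    (z : (tyv K G → Bool) × (Idx → Bool)) :
    ∃ f : ℕ → Code a × ℕ, ∀ c ∈ K, prof G (tyv K G) (toI c) = z →
      ∀ b, ∃ n, CEq (toI c) b (toI (f n).1) (f n).2 := by
  classical
  by_contra hno
  apply hP
  -- a member
  obtain ⟨c0, hc0, hz0⟩ : ∃ c ∈ K, prof G (tyv K G) (toI c) = z := by
    by_contra h
    apply hno
    exact ⟨fun _ => (fun _ _ => false, 0), fun c hc hz => absurd ⟨c, hc, hz⟩ h⟩
  -- infinitely many new components
  obtain ⟨f, hf, hff⟩ := exists_seq_of_forall_finset_exists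
    (fun p : Code a × ℕ => (p.1 ∈ K ∧ prof G (tyv K G) (toI p.1) = z) ∧
      ∀ j, ¬ CEq (toI c0) j (toI p.1) p.2)
    (fun p q => ¬ CEq (toI p.1) p.2 (toI q.1) q.2) (by
      intro s _
      by_contra h
      apply hno
      let s' : Set (Code a × ℕ) := ↑s ∪ range fun j : ℕ => (c0, j)
      have hs' : s'.Countable := s.countable_toSet.union (countable_range _)
      obtain ⟨f, hf⟩ := hs'.exists_eq_range ⟨(c0, 0), Or.inr ⟨0, rfl⟩⟩
      refine ⟨f, fun c hc hz b => ?_⟩
      by_contra hb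
      apply h
      have hb' : ∀ q ∈ s', ¬ CEq (toI c) b (toI q.1) q.2 := by
        intro q hq hc'
        rw [hf] at hq
        obtain ⟨n, rfl⟩ := hq
        exact hb ⟨n, hc'⟩
      refine ⟨(c, b), ⟨⟨hc, hz⟩, fun j hj => ?_⟩, fun q hq hq' => ?_⟩
      · exact hb' (c0, j) (Or.inr ⟨j, rfl⟩) hj.symm
      · exact hb' q (Or.inl hq) hq'.symm)
  let D : ℕ ⊕ ℕ → Interp a ℕ := Sum.elim (fun i => toI (f i).1) (fun _ => toI c0)
  let b : ℕ ⊕ ℕ → ℕ := Sum.elim (fun i => (f i).2) (fun j => j)
  have hD : ∀ k, ∃ c ∈ K, prof G (tyv K G) (toI c) = z ∧ toI c = D k := by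
    rintro (i | j)
    · exact ⟨(f i).1, (hf i).1.1, (hf i).1.2, rfl⟩
    · exact ⟨c0, hc0, hz0, rfl⟩
  have hDz : ∀ k, prof G (tyv K G) (D k) = z := by
    intro k
    obtain ⟨c, _, h1, h2⟩ := hD k
    rw [← h2, h1]
  obtain ⟨N, h1, h2, h3, h4, h5⟩ := build D b
    (fun k k' => prof_null (tyv K G) ((hDz k).trans (hDz k').symm)) (by
      intro i i' h
      rcases lt_trichotomy i i' with h' | h' | h'
      · exact absurd h (hff i i' h')
      · exact h'
      · exact absurd h.symm (hff i' i h')) (fun i j => (hf i).2 j)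
  have hdom : ∀ S, Dom K (N S) := by
    intro S
    refine ⟨fun m => ?_, h2 S⟩
    obtain ⟨k, hk⟩ := h3 S m
    obtain ⟨c, hc, _, e⟩ := hD k
    exact ⟨c, hc, b k, by rw [e]; exact hk⟩
  -- the same types of elements as in `c0`
  have hty : ∀ S ρ, (∃ m, ty G (N S) m = ρ) ↔ ∃ m, ty G (Pw (toI c0)) m = ρ := by
    intro S ρ
    constructor
    · rintro ⟨m, rfl⟩
      obtain ⟨k, g, hg, _⟩ := h3 S m
      obtain ⟨c, hc, hz, e⟩ := hD k
      have h6 : ty G (N S) m = ty G (toI c) (g m) := by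
        rw [e]
        exact ty_of_ciso hG hg
      have h7 : ty G (toI c) (g m) ∈ tyv K G := ⟨g m, c, hc, rfl⟩
      have h8 := congrFun (congrArg Prod.fst (hz.trans hz0.symm)) ⟨_, h7⟩
      simp only [prof, decide_eq_decide] at h8
      obtain ⟨j, hj⟩ := h8.1 ⟨g m, rfl⟩
      refine ⟨Nat.pair 0 j, ?_⟩
      rw [h6, ← hj]
      exact (ty_of_ciso hG (ciso_Pw (toI c0) 0 j)).symm
    · rintro ⟨m, rfl⟩
      obtain ⟨m', g, hg, _⟩ := h4 S (Nat.unpair m).2
      refine ⟨g (Nat.unpair m).2, ?_⟩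
      have h6 : ty G (toI c0) (Nat.unpair m).2 = ty G (N S) (g (Nat.unpair m).2) :=
        ty_of_ciso hG hg
      have h7 := ty_of_ciso hG (ciso_Pw (toI c0) (Nat.unpair m).1 (Nat.unpair m).2)
      rw [Nat.pair_unpair] at h7
      rw [← h7, h6]
  refine ⟨fun S => ofI (N S), ?_, fun S => ?_, fun S S' h => ?_⟩
  · refine continuous_pi fun i => continuous_pi fun t => ?_
    have h6 := h1 i t
    have h7 : Continuous fun S : ℕ → Bool => decide (N S i t) := by
      rw [continuous_discrete_rng]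
      intro β
      cases β with
      | true =>
        have : (fun S : ℕ → Bool => decide (N S i t)) ⁻¹' {true} = {S | N S i t} := by
          ext S; simp
        rw [this]; exact h6.isOpen
      | false =>
        have : (fun S : ℕ → Bool => decide (N S i t)) ⁻¹' {false} = {S | N S i t}ᶜ := by
          ext S; simp
        rw [this]; exact h6.compl.isOpen
    refine h7.congr fun S => ?_
    simp only [ofI]
  · refine hdet (Pw (toI c0)) (N S) (fun _ => 0) (fun _ => 0) (dom_Pw hc0) (hdom S) ⟨?_, ?_, ?_⟩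
      (hpw c0 hc0)
    · intro i hi
      exact absurd hi (Finset.notMem_empty i)
    · intro p hp hpe
      have h0 : p.1 = ∅ := Finset.subset_empty.1 hpe
      refine (hG p hp).iff ⟨fun i hi => ?_, fun n => n, fun i hi => ?_⟩
      · rw [h0] at hi
        exact absurd hi (Finset.notMem_empty i)
      · rw [h0] at hi
        exact absurd hi (Finset.notMem_empty i)
    · intro p hp i _
      have key : ∀ I J : Interp a ℕ, (∀ ρ, (∃ m, ty G I m = ρ) → ∃ m, ty G J m = ρ) →
          (∃ b, p.2 I (fun _ => b)) → ∃ b, p.2 J (fun _ => b) := by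
        rintro I J h6 ⟨b, hb⟩
        obtain ⟨m, hm⟩ := h6 _ ⟨b, rfl⟩
        have h7 := congrFun hm ⟨p, hp⟩
        simp only [ty, decide_eq_decide] at h7
        exact ⟨m, h7.2 hb⟩
      exact ⟨key _ _ fun ρ => (hty S ρ).2, key _ _ fun ρ => (hty S ρ).1⟩
  · simp only [toI_ofI] at h
    exact h5 S S' h.1 h.2

/-- Either there is a perfect set of members with pairwise different component types, or only
countably many component types occur in the members. -/
theorem core {K : Set (Code a)} (hK : MeasurableSet K)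
    (hinv : ∀ c c' : Code a, GIso (toI c) (toI c') → c ∈ K → c' ∈ K)
    (hpw : ∀ c ∈ K, ofI (Pw (toI c)) ∈ K) (hP : ¬ Perf CovE K) :
    ∃ f : ℕ → Code a × ℕ, ∀ c ∈ K, ∀ b, ∃ n, CEq (toI c) b (toI (f n).1) (f n).2 := by
  classical
  obtain ⟨G, hGc, hG, hdet⟩ := det_mem hK hP hinv
  have hcG : Countable G := hGc.to_subtype
  have hV : (tyv K G).Countable := tyv_countable hK hP hGc hG
  have hcV : Countable (tyv K G) := hV.to_subtype
  let κ : Code a → (tyv K G → Bool) × (Idx → Bool) := fun c => prof G (tyv K G) (toI c)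
  have hκ : Measurable κ := prof_meas hGc hG _
  have hrange : (range fun c : K => κ c.1).Countable := by
    by_contra hc
    refine hP (perf_of_uncountable hK (ι := Unit) (fun _ c => κ c.1)
      (fun _ => hκ.comp measurable_subtype_coe) (fun c c' h _ => ⟨(), prof_cov hG _ h⟩)
      (fun h => hc (h.mono ?_)))
    rintro _ ⟨c, rfl⟩
    exact ⟨(), c, rfl⟩
  choose f hf using countable_types hP hpw hG hdet
  rcases K.eq_empty_or_nonempty with rfl | ⟨c0, hc0⟩
  · exact ⟨fun _ => (fun _ _ => false, 0), fun c hc => absurd hc (notMem_empty c)⟩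
  · obtain ⟨z, hz⟩ := hrange.exists_eq_range ⟨κ c0, ⟨⟨c0, hc0⟩, rfl⟩⟩
    refine ⟨fun n => f (z (Nat.unpair n).1) (Nat.unpair n).2, fun c hc b => ?_⟩
    have h1 : κ c ∈ range fun c : K => κ c.1 := ⟨⟨c, hc⟩, rfl⟩
    rw [hz] at h1
    obtain ⟨k, hk⟩ := h1
    obtain ⟨n, hn⟩ := hf (κ c) c hc rfl b
    refine ⟨Nat.pair k n, ?_⟩
    simp only [Nat.unpair_pair, hk]
    exact hn

end Pool.Agent.H623R2.VE
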