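import Pool.Agent.H623R2.VE.Code

set_option autoImplicit false
set_option linter.unusedSectionVars false

/-!
Queries determined by countably many local queries, on structures in which each component has
infinitely many isomorphic copies.
-/

namespace Pool.Agent.H623R2.VE

open Set MeasureTheory

variable {Idx : Type} [Countable Idx] {a : Idx → ℕ}

/-- The same pattern of connectedness, the same local queries, the same one-variable local queries
realised somewhere. -/
structure Same (G : Set (Finset ℕ × Query a)) (F : Finset ℕ) (I : Interp a ℕ) (v : ℕ → ℕ)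
    (J : Interp a ℕ) (w : ℕ → ℕ) : Prop where
  pat : ∀ i ∈ F, ∀ j ∈ F, (Conn I (v i) (v j) ↔ Conn J (w i) (w j))
  loc : ∀ p ∈ G, p.1 ⊆ F → (p.2 I v ↔ p.2 J w)
  glo : ∀ p ∈ G, ∀ i, p.1 ⊆ {i} → ((∃ b, p.2 I (fun _ => b)) ↔ ∃ b, p.2 J (fun _ => b))

theorem Same.symm {G : Set (Finset ℕ × Query a)} {F : Finset ℕ} {I J : Interp a ℕ}
    {v w : ℕ → ℕ} (h : Same G F I v J w) : Same G F J w I v :=
  ⟨fun i hi j hj => (h.pat i hi j hj).symm, fun p hp hF => (h.loc p hp hF).symm,
    fun p hp i hi => (h.glo p hp i hi).symm⟩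

theorem Same.mono {G G' : Set (Finset ℕ × Query a)} (hG : G ⊆ G') {F F' : Finset ℕ} (hF : F ⊆ F')
    {I J : Interp a ℕ} {v w : ℕ → ℕ} (h : Same G' F' I v J w) : Same G F I v J w :=
  ⟨fun i hi j hj => h.pat i (hF hi) j (hF hj), fun p hp hpF => h.loc p (hG hp) (hpF.trans hF),
    fun p hp i hi => h.glo p (hG hp) i hi⟩

/-- Queries determined by countably many local queries. -/
def Det (K : Set (Code a)) (F : Finset ℕ) (Φ : Query a) : Prop :=
  ∃ G : Set (Finset ℕ × Query a), G.Countable ∧ (∀ p ∈ G, PLoc p.1 p.2) ∧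
    ∀ I J v w, Dom K I → Dom K J → Same G F I v J w → Φ I v → Φ J w

theorem Det.mono {K : Set (Code a)} {F F' : Finset ℕ} (hF : F ⊆ F') {Φ : Query a}
    (h : Det K F Φ) : Det K F' Φ := by
  obtain ⟨G, h1, h2, h3⟩ := h
  exact ⟨G, h1, h2, fun I J v w hI hJ hs => h3 I J v w hI hJ (hs.mono (Subset.refl _) hF)⟩

theorem Det.congr {K : Set (Code a)} {F : Finset ℕ} {Φ Ψ : Query a}
    (h : Det K F Φ) (he : ∀ I v, Φ I v ↔ Ψ I v) : Det K F Ψ := by
  have : Φ = Ψ := by
    funext I v
    exact propext (he I v)
  rwa [← this]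

theorem Det.not {K : Set (Code a)} {F : Finset ℕ} {Φ : Query a} (h : Det K F Φ) :
    Det K F (fun I v => ¬ Φ I v) := by
  obtain ⟨G, h1, h2, h3⟩ := h
  exact ⟨G, h1, h2, fun I J v w hI hJ hs hI' hJ' => hI' (h3 J I w v hJ hI hs.symm hJ')⟩

theorem Det.iEx {K : Set (Code a)} {F : Finset ℕ} {ι : Type} [Countable ι] {Φ : ι → Query a}
    (h : ∀ k, Det K F (Φ k)) : Det K F (fun I v => ∃ k, Φ k I v) := by
  choose G h1 h2 h3 using h
  refine ⟨⋃ k, G k, countable_iUnion h1, fun p hp => ?_, ?_⟩
  · obtain ⟨k, hk⟩ := mem_iUnion.1 hp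
    exact h2 k p hk
  · rintro I J v w hI hJ hs ⟨k, hk⟩
    exact ⟨k, h3 k I J v w hI hJ (hs.mono (subset_iUnion G k) (Finset.Subset.refl _)) hk⟩

theorem Det.iAll {K : Set (Code a)} {F : Finset ℕ} {ι : Type} [Countable ι] {Φ : ι → Query a}
    (h : ∀ k, Det K F (Φ k)) : Det K F (fun I v => ∀ k, Φ k I v) := by
  choose G h1 h2 h3 using h
  refine ⟨⋃ k, G k, countable_iUnion h1, fun p hp => ?_, ?_⟩
  · obtain ⟨k, hk⟩ := mem_iUnion.1 hp
    exact h2 k p hk
  · intro I J v w hI hJ hs hk k
    exact h3 k I J v w hI hJ (hs.mono (subset_iUnion G k) (Finset.Subset.refl _)) (hk k)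

theorem Det.and {K : Set (Code a)} {F : Finset ℕ} {Φ Ψ : Query a} (h : Det K F Φ)
    (h' : Det K F Ψ) : Det K F (fun I v => Φ I v ∧ Ψ I v) := by
  have h1 := Det.iAll (ι := Bool) (Φ := fun b => if b = true then Φ else Ψ) (K := K) (F := F)
    (fun b => by
      cases b
      · simpa using h'
      · simpa using h)
  refine h1.congr fun I v => ?_
  constructor
  · intro h
    have h2 := h true
    have h3 := h false
    simp only [if_true] at h2
    simp only [Bool.false_eq_true, if_false] at h3
    exact ⟨h2, h3⟩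
  · rintro ⟨h2, h3⟩ b
    cases b
    · simpa using h3
    · simpa using h2

theorem Det.const {K : Set (Code a)} {F : Finset ℕ} (P : Prop) : Det K F (fun _ _ => P) :=
  ⟨∅, countable_empty, fun p hp => absurd hp (notMem_empty p), fun _ _ _ _ _ _ _ h => h⟩

theorem ploc_eq (i j : ℕ) : PLoc (a := a) {i, j} (fun _ v => v i = v j) := by
  refine ⟨?_, ?_, fun v => MeasurableSet.const _⟩
  · intro I v h
    have key : ∀ k ∈ ({i, j} : Finset ℕ), v k = v j := by
      intro k hk
      rw [Finset.mem_insert, Finset.mem_singleton] at hk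
      rcases hk with rfl | rfl
      · exact h
      · rfl
    intro k hk k' hk'
    rw [key k hk, key k' hk']
    exact Conn.refl _ _
  · rintro I v J w ⟨_, g, hg⟩ h
    have h1 := (hg i (by simp)).2
    have h2 := (hg j (by simp)).2
    change w i = w j
    rw [← h1, ← h2]
    exact congrArg g h

theorem Det.eq {K : Set (Code a)} {F : Finset ℕ} {i j : ℕ} (hi : i ∈ F) (hj : j ∈ F) :
    Det K F (fun _ v => v i = v j) := by
  refine ⟨{(({i, j} : Finset ℕ), fun _ v => v i = v j)}, countable_singleton _, ?_, ?_⟩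
  · rintro _ rfl
    exact ploc_eq i j
  · intro I J v w _ _ hs h
    refine (hs.loc _ rfl ?_).1 h
    intro k hk
    simp only [Finset.mem_insert, Finset.mem_singleton] at hk
    rcases hk with rfl | rfl
    · exact hi
    · exact hj

theorem ploc_rel {i : Idx} (t : Fin (a i) → ℕ) (k0 : Fin (a i)) :
    PLoc (a := a) (Finset.univ.image t) (fun I v => I i (fun k => v (t k))) := by
  refine ⟨?_, ?_, fun v => measurableSet_rel _ _⟩
  · intro I v h j hj j' hj'
    obtain ⟨k, _, rfl⟩ := Finset.mem_image.1 hj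
    obtain ⟨k', _, rfl⟩ := Finset.mem_image.1 hj'
    exact conn_tuple h k k'
  · rintro I v J w ⟨hc, g, hg⟩ h
    have hm : ∀ k, t k ∈ Finset.univ.image t := fun k =>
      Finset.mem_image.2 ⟨k, Finset.mem_univ k, rfl⟩
    have h1 := ((hg (t k0) (hm k0)).1.rel i (fun k => v (t k))
      (fun k => hc _ (hm k0) _ (hm k))).1 h
    have h2 : (fun k => g (v (t k))) = fun k => w (t k) := by
      funext k
      exact (hg (t k) (hm k)).2
    rw [h2] at h1
    exact h1

/-- The local query given by a relation of arity `0`. -/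
theorem ploc_null {i : Idx} (hE : IsEmpty (Fin (a i))) :
    PLoc (a := a) {0} (fun I _ => I i (fun k => (hE.false k).elim)) := by
  refine ⟨?_, ?_, fun v => measurableSet_rel _ _⟩
  · intro I v h j hj j' hj'
    rw [Finset.mem_singleton] at hj hj'
    rw [hj, hj']
    exact Conn.refl _ _
  · rintro I v J w ⟨hc, g, hg⟩ h
    exact ((hg 0 (by simp)).1.nullEq i hE _ _).1 h

theorem Det.rel {K : Set (Code a)} {F : Finset ℕ} {i : Idx} (t : Fin (a i) → ℕ)
    (ht : ∀ k, t k ∈ F) : Det K F (fun I v => I i (fun k => v (t k))) := by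
  rcases isEmpty_or_nonempty (Fin (a i)) with hE | ⟨⟨k0⟩⟩
  · refine ⟨{(({0} : Finset ℕ), fun I _ => I i (fun k => (hE.false k).elim))},
      countable_singleton _, ?_, ?_⟩
    · rintro _ rfl
      exact ploc_null hE
    · intro I J v w _ _ hs h
      have e : ∀ s : Fin (a i) → ℕ, s = fun k => (hE.false k).elim := fun s =>
        funext fun k => (hE.false k).elim
      have h1 := (hs.glo _ rfl 0 (Finset.Subset.refl _)).1 ⟨0, by
        simp only
        rw [← e (fun k => v (t k))]
        exact h⟩
      obtain ⟨_, h2⟩ := h1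
      simp only at h2 ⊢
      rw [e (fun k => w (t k))]
      exact h2
  · refine ⟨{(Finset.univ.image t, fun I v => I i (fun k => v (t k)))},
      countable_singleton _, ?_, ?_⟩
    · rintro _ rfl
      exact ploc_rel t k0
    · intro I J v w _ _ hs h
      refine (hs.loc _ rfl ?_).1 h
      intro k hk
      obtain ⟨l, _, rfl⟩ := Finset.mem_image.1 hk
      exact ht l

/-! ### Existential quantifiers -/

/-- Some element of the component of the values of the variables in `B` has local type `τ`. -/
def exq (G : Set (Finset ℕ × Query a)) (y : ℕ) (B : Finset ℕ) (τ : G → Bool) : Query a :=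
  fun I v => (∀ i ∈ B, ∀ j ∈ B, Conn I (v i) (v j)) ∧ ∃ b, (∀ i ∈ B, Conn I (v i) b) ∧
    ltp G (insert y B) I (Function.update v y b) = τ

theorem GI.upd {B : Finset ℕ} {I J : Interp a ℕ} {v w : ℕ → ℕ} {g : ℕ → ℕ} {y b : ℕ}
    (hc : ∀ i ∈ B, ∀ j ∈ B, Conn I (v i) (v j)) (hcb : ∀ i ∈ B, Conn I (v i) b)
    (hb : CIso I J g b) (hB : ∀ i ∈ B, CIso I J g (v i) ∧ g (v i) = w i) (hy : y ∉ B) :
    GI (insert y B) I (Function.update v y b) J (Function.update w y (g b)) := by
  have hne : ∀ i ∈ B, i ≠ y := by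
    rintro i hi rfl
    exact hy hi
  refine ⟨fun i hi j hj => ?_, g, fun i hi => ?_⟩
  · rcases Finset.mem_insert.1 hi with hiy | hi
    · rcases Finset.mem_insert.1 hj with hjy | hj
      · rw [hiy, hjy]
        exact Conn.refl _ _
      · rw [hiy, Function.update_self, Function.update_of_ne (hne j hj)]
        exact (hcb j hj).symm
    · rcases Finset.mem_insert.1 hj with hjy | hj
      · rw [hjy, Function.update_self, Function.update_of_ne (hne i hi)]
        exact hcb i hi
      · rw [Function.update_of_ne (hne i hi), Function.update_of_ne (hne j hj)]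
        exact hc i hi j hj
  · rcases Finset.mem_insert.1 hi with hiy | hi
    · rw [hiy, Function.update_self, Function.update_self]
      exact ⟨hb, rfl⟩
    · rw [Function.update_of_ne (hne i hi), Function.update_of_ne (hne i hi)]
      exact hB i hi

theorem exq_ploc {G : Set (Finset ℕ × Query a)} (hGc : G.Countable)
    (hG : ∀ p ∈ G, PLoc p.1 p.2) {y : ℕ} {B : Finset ℕ} (hy : y ∉ B) (hne : B.Nonempty)
    (τ : G → Bool) : PLoc B (exq G y B τ) := by
  have hcG : Countable G := hGc.to_subtype
  refine ⟨fun I v hv => hv.1, ?_, ?_⟩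
  · rintro I v J w hGI ⟨hc, b, hcb, hτ⟩
    refine ⟨hGI.symm.1, ?_⟩
    obtain ⟨_, g, hg⟩ := hGI
    obtain ⟨i0, hi0⟩ := hne
    have hb : CIso I J g b := (hg i0 hi0).1.move (hcb i0 hi0)
    refine ⟨g b, fun i hi => ?_, ?_⟩
    · rw [← (hg i hi).2]
      exact (hg i hi).1.map b (hcb i hi)
    · rw [← hτ]
      exact (ltp_of_GI hG (GI.upd hc hcb hb hg hy)).symm
  · intro v
    have e : {c : Code a | exq G y B τ (toI c) v} =
        (⋂ i ∈ B, ⋂ j ∈ B, {c : Code a | Conn (toI c) (v i) (v j)}) ∩
          ⋃ b, ((⋂ i ∈ B, {c : Code a | Conn (toI c) (v i) b}) ∩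
            {c : Code a | ltp G (insert y B) (toI c) (Function.update v y b) = τ}) := by
      ext c
      simp only [exq, mem_ofPred_eq, mem_inter_iff, mem_iInter, mem_iUnion]
    rw [e]
    refine MeasurableSet.inter (Finset.measurableSet_biInter _ fun i _ =>
      Finset.measurableSet_biInter _ fun j _ => measurableSet_conn _ _)
      (MeasurableSet.iUnion fun b => MeasurableSet.inter
        (Finset.measurableSet_biInter _ fun i _ => measurableSet_conn _ _) ?_)
    exact ltp_meas hG _ _ (measurableSet_singleton τ)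

theorem ltpq_ploc {G : Set (Finset ℕ × Query a)} (hGc : G.Countable)
    (hG : ∀ p ∈ G, PLoc p.1 p.2) (y : ℕ) (τ : G → Bool) :
    PLoc {y} (fun I v => ltp G {y} I v = τ) := by
  have hcG : Countable G := hGc.to_subtype
  refine ⟨?_, ?_, ?_⟩
  · intro I v _ i hi j hj
    rw [Finset.mem_singleton] at hi hj
    rw [hi, hj]
    exact Conn.refl _ _
  · rintro I v J w hGI hτ
    rw [← hτ]
    exact (ltp_of_GI hG hGI).symm
  · intro v
    exact ltp_meas hG _ _ (measurableSet_singleton τ)

theorem Det.ex {K : Set (Code a)} (hK : MeasurableSet K) (hP : ¬ Perf CovE K) {F : Finset ℕ}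
    {y : ℕ} {Φ : Query a} (h : Det K (insert y F) Φ) :
    Det K F (fun I v => ∃ b, Φ I (Function.update v y b)) := by
  classical
  obtain ⟨G, hGc, hG, hΦ⟩ := h
  let G1 : Set (Finset ℕ × Query a) := ⋃ B ∈ {B : Finset ℕ | y ∉ B ∧ B.Nonempty},
    (fun τ => (B, exq G y B τ)) '' (lval K G (insert y B))
  let G2 : Set (Finset ℕ × Query a) :=
    (fun τ => (({y} : Finset ℕ), fun I v => ltp G {y} I v = τ)) '' (lval K G {y})
  let G' : Set (Finset ℕ × Query a) := G ∪ (G1 ∪ G2)
  have hGG' : G ⊆ G' := subset_union_left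
  refine ⟨G', ?_, ?_, ?_⟩
  · refine hGc.union (Countable.union ?_ ?_)
    · exact (to_countable _).biUnion fun B _ =>
        (lval_countable hK hP hGc hG (Finset.insert_nonempty _ _)).image _
    · exact (lval_countable hK hP hGc hG (Finset.singleton_nonempty _)).image _
  · rintro p (hp | hp | hp)
    · exact hG p hp
    · obtain ⟨B, hB, hp⟩ := mem_iUnion₂.1 hp
      obtain ⟨τ, _, rfl⟩ := hp
      exact exq_ploc hGc hG hB.1 hB.2 τ
    · obtain ⟨τ, _, rfl⟩ := hp
      exact ltpq_ploc hGc hG y τ
  · rintro I J v w hI hJ hs ⟨b, hb⟩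
    let F' := F.erase y
    have hyF' : y ∉ F' := Finset.notMem_erase y F
    have hF'F : F' ⊆ F := Finset.erase_subset y F
    have hne : ∀ j ∈ F', j ≠ y := by
      rintro j hj rfl
      exact hyF' hj
    have hmF' : ∀ j ∈ insert y F, j ≠ y → j ∈ F' := by
      intro j hj hjy
      exact Finset.mem_erase.2 ⟨hjy, (Finset.mem_insert.1 hj).resolve_left hjy⟩
    let B : Finset ℕ := F'.filter (fun j => Conn I (v j) b)
    have hB : ∀ j, j ∈ B ↔ j ∈ F' ∧ Conn I (v j) b := fun j => Finset.mem_filter
    have hyB : y ∉ B := fun h => hyF' ((hB y).1 h).1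
    -- it suffices to find a suitable element
    suffices H : ∃ b', (∀ j ∈ F', (Conn I (v j) b ↔ Conn J (w j) b')) ∧
        ltp G (insert y B) I (Function.update v y b) =
          ltp G (insert y B) J (Function.update w y b') by
      obtain ⟨b', hb1, hb2⟩ := H
      refine ⟨b', hΦ I J _ _ hI hJ ⟨?_, ?_, ?_⟩ hb⟩
      · intro i hi j hj
        by_cases hiy : i = y
        · by_cases hjy : j = y
          · rw [hiy, hjy]
            exact ⟨fun _ => Conn.refl _ _, fun _ => Conn.refl _ _⟩
          · rw [hiy, Function.update_self, Function.update_self, Function.update_of_ne hjy,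
              Function.update_of_ne hjy]
            have h1 := hb1 j (hmF' j hj hjy)
            exact ⟨fun h => (h1.1 h.symm).symm, fun h => (h1.2 h.symm).symm⟩
        · by_cases hjy : j = y
          · rw [hjy, Function.update_self, Function.update_self, Function.update_of_ne hiy,
              Function.update_of_ne hiy]
            exact hb1 i (hmF' i hi hiy)
          · rw [Function.update_of_ne hiy, Function.update_of_ne hiy, Function.update_of_ne hjy,
              Function.update_of_ne hjy]
            exact hs.pat i (hF'F (hmF' i hi hiy)) j (hF'F (hmF' j hj hjy))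
      · intro p hp hpF
        by_cases hy : y ∈ p.1
        · have key : ∀ (H : Interp a ℕ) (u : ℕ → ℕ) (d : ℕ),
              (∀ j ∈ F', Conn H (u j) d → j ∈ B) → p.2 H (Function.update u y d) →
              p.1 ⊆ insert y B := by
            intro H u d h1 h2 i hi
            by_cases hiy : i = y
            · rw [hiy]
              exact Finset.mem_insert_self _ _
            · refine Finset.mem_insert_of_mem (h1 i (hmF' i (hpF hi) hiy) ?_)
              have := (hG p hp).conn H _ h2 i hi y hy
              rwa [Function.update_self, Function.update_of_ne hiy] at this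
          constructor
          · intro h2
            have h3 := key I v b (fun j hj hc => (hB j).2 ⟨hj, hc⟩) h2
            exact (ltp_eq_iff.1 hb2 p hp h3).1 h2
          · intro h2
            have h3 := key J w b' (fun j hj hc => (hB j).2 ⟨hj, (hb1 j hj).2 hc⟩) h2
            exact (ltp_eq_iff.1 hb2 p hp h3).2 h2
        · have hpF2 : p.1 ⊆ F := fun i hi => (Finset.mem_insert.1 (hpF hi)).resolve_left
            (fun h => hy (h ▸ hi))
          have e : ∀ (H : Interp a ℕ) (u : ℕ → ℕ) (d : ℕ),
              (p.2 H (Function.update u y d) ↔ p.2 H u) := by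
            intro H u d
            refine (hG p hp).congr_iff fun i hi => ?_
            have hiy : i ≠ y := by
              rintro rfl
              exact hy hi
            rw [Function.update_of_ne hiy]
          rw [e, e]
          exact hs.loc p (hGG' hp) hpF2
      · intro p hp i hi
        exact hs.glo p (hGG' hp) i hi
    by_cases hBe : B.Nonempty
    · -- an old component
      obtain ⟨i0, hi0⟩ := hBe
      have hi0' := (hB i0).1 hi0
      have hcB : ∀ i ∈ B, ∀ j ∈ B, Conn I (v i) (v j) := fun i hi j hj =>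
        ((hB i).1 hi).2.trans ((hB j).1 hj).2.symm
      set τ := ltp G (insert y B) I (Function.update v y b) with hτ
      have hτV : τ ∈ lval K G (insert y B) := by
        refine lval_mem hG (Finset.insert_nonempty _ _) hI ?_
        exact (GI.upd (g := fun n => n) (J := I) (w := v) hcB (fun i hi => ((hB i).1 hi).2)
          (CIso.id I b) (fun i _ => ⟨CIso.id I (v i), rfl⟩) hyB).1
      have hmem : (B, exq G y B τ) ∈ G' :=
        Or.inr (Or.inl (mem_iUnion₂.2 ⟨B, ⟨hyB, ⟨i0, hi0⟩⟩, τ, hτV, rfl⟩))
      have hBF : B ⊆ F := fun i hi => hF'F ((hB i).1 hi).1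
      have h1 : exq G y B τ I v := ⟨hcB, b, fun i hi => ((hB i).1 hi).2, rfl⟩
      obtain ⟨_, b', h2, h3⟩ := (hs.loc _ hmem hBF).1 h1
      refine ⟨b', fun j hj => ?_, h3.symm⟩
      constructor
      · intro h
        exact h2 j ((hB j).2 ⟨hj, h⟩)
      · intro h
        have h4 : Conn J (w j) (w i0) := h.trans (h2 i0 hi0).symm
        have h5 := (hs.pat j (hF'F hj) i0 (hBF hi0)).2 h4
        exact h5.trans hi0'.2
    · -- a new component
      have hB0 : B = ∅ := Finset.not_nonempty_iff_eq_empty.1 hBe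
      have hno : ∀ j ∈ F', ¬ Conn I (v j) b := by
        intro j hj hc
        have : j ∈ B := (hB j).2 ⟨hj, hc⟩
        rw [hB0] at this
        exact absurd this (Finset.notMem_empty j)
      have hins : insert y B = {y} := by rw [hB0]; rfl
      have hcst : ∀ (H : Interp a ℕ) (u : ℕ → ℕ) (d : ℕ),
          ltp G {y} H (Function.update u y d) = ltp G {y} H (fun _ => d) := by
        intro H u d
        refine ltp_congr hG fun i hi => ?_
        rw [Finset.mem_singleton] at hi
        rw [hi, Function.update_self]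
      set τ := ltp G {y} I (fun _ => b) with hτ
      have hτV : τ ∈ lval K G {y} := by
        refine lval_mem hG (Finset.singleton_nonempty y) hI ?_
        intro i _ j _
        exact Conn.refl _ _
      have hmem : ((({y} : Finset ℕ), fun I v => ltp G {y} I v = τ) : Finset ℕ × Query a) ∈ G' :=
        Or.inr (Or.inr ⟨τ, hτV, rfl⟩)
      obtain ⟨b0, hb0⟩ := (hs.glo _ hmem y (Finset.Subset.refl _)).1 ⟨b, hτ.symm⟩
      obtain ⟨b1, ⟨g, hg, hgb⟩, hb1⟩ := hJ.inf b0 (F'.image w)
      refine ⟨g b0, fun j hj => ?_, ?_⟩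
      · constructor
        · intro h
          exact absurd h (hno j hj)
        · intro h
          exact absurd (h.trans hgb) (hb1 (w j) (Finset.mem_image.2 ⟨j, hj, rfl⟩))
      · rw [hins, hcst, hcst, ← hτ, ← hb0]
        refine ltp_of_GI hG ⟨fun i _ j _ => Conn.refl _ _, g, fun i _ => ⟨hg, rfl⟩⟩

end Pool.Agent.H623R2.VE
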