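import Pool.Agent.H623R2.VE.Pow

set_option autoImplicit false
set_option linter.unusedSectionVars false

/-!
First-order theories such that each model has a proper multiple that is a model.
-/

namespace Pool.Agent.H623R2.VE

open Set MeasureTheory FirstOrder FirstOrder.Language

variable {L : FirstOrder.Language.{0, 0}} [L.IsRelational] {M N : Type}

/-- The disjoint union of copies of `M`, one for each element of `A`. -/
@[reducible] def mul (A : Type) (S : L.Structure M) : L.Structure (A × M) where
  funMap f := isEmptyElim f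
  RelMap R t := (∀ k l, (t k).1 = (t l).1) ∧ S.RelMap R (fun k => (t k).2)

/-- Maps that preserve all relations. -/
def RIso (S : L.Structure M) (S' : L.Structure N) : Prop :=
  ∃ e : M ≃ N, ∀ {n : ℕ} (R : L.Relations n) (t : Fin n → M),
    S.RelMap R t ↔ S'.RelMap R (fun k => e (t k))

theorem RIso.symm {S : L.Structure M} {S' : L.Structure N} (h : RIso S S') : RIso S' S := by
  obtain ⟨e, he⟩ := h
  refine ⟨e.symm, fun R t => ?_⟩
  rw [he]
  simp

theorem RIso.trans {P : Type} {S : L.Structure M} {S' : L.Structure N} {S'' : L.Structure P}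
    (h : RIso S S') (h' : RIso S' S'') : RIso S S'' := by
  obtain ⟨e, he⟩ := h
  obtain ⟨e', he'⟩ := h'
  exact ⟨e.trans e', fun R t => (he R t).trans (he' R _)⟩

theorem RIso.iff {S : L.Structure M} {S' : L.Structure N} :
    RIso S S' ↔ Nonempty (@FirstOrder.Language.Equiv L M N S S') := by
  constructor
  · rintro ⟨e, he⟩
    exact ⟨{ toEquiv := e
             map_fun' := fun f => isEmptyElim f
             map_rel' := fun R t => (he R t).symm }⟩
  · rintro ⟨g⟩
    exact ⟨g.toEquiv, fun R t => (g.map_rel' R t).symm⟩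

theorem RIso.model {S : L.Structure M} {S' : L.Structure N} (h : RIso S S') {T : L.Theory}
    (hT : @Theory.Model L M S T) : @Theory.Model L N S' T := by
  obtain ⟨g⟩ := RIso.iff.1 h
  let _ := S
  let _ := S'
  have : M ⊨ T := hT
  exact StrongHomClass.theory_model g

theorem RIso.mul (A : Type) {S : L.Structure M} {S' : L.Structure N} (h : RIso S S') :
    RIso (mul A S) (mul A S') := by
  obtain ⟨e, he⟩ := h
  refine ⟨(Equiv.refl A).prodCongr e, fun R t => ?_⟩
  show (_ ∧ _) ↔ (_ ∧ _)
  refine and_congr Iff.rfl ?_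
  exact he R _

theorem riso_unit (S : L.Structure M) : RIso S (mul Unit S) := by
  refine ⟨(Equiv.punitProd M).symm, fun R t => ?_⟩
  show _ ↔ (_ ∧ _)
  exact ⟨fun h => ⟨fun _ _ => rfl, h⟩, fun h => h.2⟩

theorem riso_assoc (A B : Type) (S : L.Structure M) :
    RIso (mul A (mul B S)) (mul (A × B) S) := by
  refine ⟨(Equiv.prodAssoc A B M).symm, fun R t => ?_⟩
  show (_ ∧ (_ ∧ _)) ↔ (_ ∧ _)
  constructor
  · rintro ⟨h1, h2, h3⟩
    exact ⟨fun k l => Prod.ext (h1 k l) (h2 k l), h3⟩
  · rintro ⟨h1, h2⟩
    have h1' : ∀ k l, ((t k).1, (t k).2.1) = ((t l).1, (t l).2.1) := h1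
    exact ⟨fun k l => (Prod.ext_iff.1 (h1' k l)).1, fun k l => (Prod.ext_iff.1 (h1' k l)).2, h2⟩

theorem riso_index {A B : Type} (e : A ≃ B) (S : L.Structure M) : RIso (mul A S) (mul B S) := by
  refine ⟨e.prodCongr (Equiv.refl M), fun R t => ?_⟩
  show (_ ∧ _) ↔ (_ ∧ _)
  refine and_congr ?_ Iff.rfl
  exact forall_congr' fun k => forall_congr' fun l => (e.apply_eq_iff_eq).symm

/-- Quantifier rank. -/
def qr {α : Type} : ∀ {n : ℕ}, L.BoundedFormula α n → ℕ
  | _, .falsum => 0
  | _, .equal _ _ => 0
  | _, .rel _ _ => 0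
  | _, .imp f g => max (qr f) (qr g)
  | _, .all f => qr f + 1

/-- `A` has at least `N` elements. -/
def Big (A : Type) (N : ℕ) : Prop := ∀ s : Finset A, s.card < N → ∃ x, x ∉ s

theorem Big.mono {A : Type} {N N' : ℕ} (h : N' ≤ N) (hA : Big A N) : Big A N' :=
  fun s hs => hA s (hs.trans_le h)

theorem big_nat (N : ℕ) : Big ℕ N := fun s _ => Infinite.exists_notMem_finset s

theorem big_fintype (A : Type) [Fintype A] {N : ℕ} (h : N ≤ Fintype.card A) : Big A N := by
  intro s hs
  by_contra hc
  push Not at hc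
  have : s = Finset.univ := Finset.eq_univ_of_forall hc
  rw [this, Finset.card_univ] at hs
  omega

theorem term_var {n : ℕ} (t : L.Term (Empty ⊕ Fin n)) : ∃ i : Fin n, t = Term.var (Sum.inr i) := by
  cases t with
  | var x =>
    cases x with
    | inl e => exact e.elim
    | inr i => exact ⟨i, rfl⟩
  | func f _ => exact isEmptyElim f

theorem ef_aux (S : L.Structure M) {n : ℕ} (φ : L.BoundedFormula Empty n) :
    ∀ (A B : Type), Big A (n + qr φ) → Big B (n + qr φ) → ∀ (v : Fin n → A × M)
      (w : Fin n → B × M), (∀ i, (v i).2 = (w i).2) →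
      (∀ i j, (v i).1 = (v j).1 ↔ (w i).1 = (w j).1) →
      @BoundedFormula.Realize L (A × M) (mul A S) Empty n φ default v →
      @BoundedFormula.Realize L (B × M) (mul B S) Empty n φ default w := by
  classical
  induction φ with
  | falsum => exact fun _ _ _ _ _ _ _ _ h => h
  | @equal n t1 t2 =>
    intro A B _ _ v w h1 h2 h
    obtain ⟨i, rfl⟩ := term_var t1
    obtain ⟨j, rfl⟩ := term_var t2
    have h' : v i = v j := h
    show w i = w j
    refine Prod.ext ((h2 i j).1 (congrArg Prod.fst h')) ?_
    rw [← h1, ← h1, h']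
  | @rel n l R ts =>
    intro A B _ _ v w h1 h2 h
    choose i hi using fun k => term_var (ts k)
    obtain rfl : ts = fun k => Term.var (Sum.inr (i k)) := funext hi
    have h' : (∀ k l, (v (i k)).1 = (v (i l)).1) ∧ S.RelMap R (fun k => (v (i k)).2) := h
    show (∀ k l, (w (i k)).1 = (w (i l)).1) ∧ S.RelMap R (fun k => (w (i k)).2)
    refine ⟨fun k l => (h2 _ _).1 (h'.1 k l), ?_⟩
    have e : (fun k => (w (i k)).2) = fun k => (v (i k)).2 := funext fun k => (h1 (i k)).symm
    rw [e]
    exact h'.2
  | @imp n f g ihf ihg =>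
    intro A B hA hB v w h1 h2 h h3
    have hl : n + qr f ≤ n + qr (f.imp g) := Nat.add_le_add_left (le_max_left _ _) n
    have hr : n + qr g ≤ n + qr (f.imp g) := Nat.add_le_add_left (le_max_right _ _) n
    refine ihg A B (hA.mono hr) (hB.mono hr) v w h1 h2 (h ?_)
    exact ihf B A (hB.mono hl) (hA.mono hl) w v (fun i => (h1 i).symm)
      (fun i j => (h2 i j).symm) h3
  | @all n f ih =>
    intro A B hA hB v w h1 h2 h b
    have hle : n + 1 + qr f ≤ n + qr f.all := by
      show n + 1 + qr f ≤ n + (qr f + 1)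
      omega
    have hex : ∃ α : A, ∀ i, ((v i).1 = α ↔ (w i).1 = b.1) := by
      by_cases hb : ∃ i, (w i).1 = b.1
      · obtain ⟨i, hi⟩ := hb
        refine ⟨(v i).1, fun j => ?_⟩
        rw [h2 j i, hi]
      · push Not at hb
        obtain ⟨α, hα⟩ := hA (Finset.univ.image fun i => (v i).1) (by
          refine lt_of_le_of_lt Finset.card_image_le ?_
          rw [Finset.card_univ, Fintype.card_fin]
          show n < n + (qr f + 1)
          omega)
        refine ⟨α, fun i => ⟨fun h => ?_, fun h => absurd h (hb i)⟩⟩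
        exact absurd (Finset.mem_image.2 ⟨i, Finset.mem_univ i, h⟩) hα
    obtain ⟨α, hα⟩ := hex
    refine ih A B (hA.mono hle) (hB.mono hle) (Fin.snoc v (α, b.2)) (Fin.snoc w b) ?_ ?_
      (h (α, b.2))
    · intro i
      refine Fin.lastCases ?_ (fun i => ?_) i
      · simp only [Fin.snoc_last]
      · simp only [Fin.snoc_castSucc]
        exact h1 i
    · intro i j
      refine Fin.lastCases ?_ (fun i => ?_) i
      · refine Fin.lastCases ?_ (fun j => ?_) j
        · simp only [Fin.snoc_last]
        · simp only [Fin.snoc_last, Fin.snoc_castSucc]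
          exact ⟨fun h => ((hα j).1 h.symm).symm, fun h => ((hα j).2 h.symm).symm⟩
      · refine Fin.lastCases ?_ (fun j => ?_) j
        · simp only [Fin.snoc_last, Fin.snoc_castSucc]
          exact hα i
        · simp only [Fin.snoc_castSucc]
          exact h2 i j

/-- If arbitrarily large finite multiples of `S` satisfy `T`, so does the infinite one. -/
theorem model_nat (S : L.Structure M) (T : L.Theory)
    (h : ∀ N : ℕ, ∃ A : Type, Big A N ∧ @Theory.Model L (A × M) (mul A S) T) :
    @Theory.Model L (ℕ × M) (mul ℕ S) T := by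
  refine @Theory.Model.mk L (ℕ × M) (mul ℕ S) T fun φ hφ => ?_
  obtain ⟨A, hA, hm⟩ := h (qr φ)
  have h1 : @Sentence.Realize L (A × M) (mul A S) φ :=
    @Theory.Model.realize_of_mem L (A × M) (mul A S) T hm φ hφ
  refine ef_aux S φ A ℕ (by rw [Nat.zero_add]; exact hA) (big_nat _) default default
    (fun i => i.elim0) (fun i => i.elim0) h1

theorem big_prod {A A' : Type} (hA' : Nontrivial A') {N : ℕ} (hA : Big A (N + 1)) :
    Big (A' × A) (N + 2) := by
  classical
  intro s hs
  obtain ⟨x, y, hxy⟩ := hA'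
  let f : A' → Finset (A' × A) := fun z => s.filter (fun p => p.1 = z)
  have h1 : ∀ z, (f z).card < N + 1 → ∃ q, q ∉ s := by
    intro z hz
    obtain ⟨b, hb⟩ := hA ((f z).image Prod.snd) (lt_of_le_of_lt Finset.card_image_le hz)
    refine ⟨(z, b), fun h => hb ?_⟩
    exact Finset.mem_image.2 ⟨(z, b), Finset.mem_filter.2 ⟨h, rfl⟩, rfl⟩
  have h2 : (f x).card + (f y).card ≤ s.card := by
    rw [← Finset.card_union_of_disjoint]
    · refine Finset.card_le_card (Finset.union_subset (Finset.filter_subset _ _)
        (Finset.filter_subset _ _))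
    · rw [Finset.disjoint_left]
      intro q hq hq'
      exact hxy ((Finset.mem_filter.1 hq).2.symm.trans (Finset.mem_filter.1 hq').2)
  by_cases hx : (f x).card < N + 1
  · exact h1 x hx
  · refine h1 y ?_
    omega

/-- If each model has a proper multiple that is a model, then infinite powers of models are
models. -/
theorem model_pow (T : L.Theory)
    (hT : ∀ S : L.Structure ℕ, @Theory.Model L ℕ S T → ∃ A : Type, Countable A ∧ Nontrivial A ∧
      @Theory.Model L (A × ℕ) (mul A S) T)
    (S : L.Structure ℕ) (hS : @Theory.Model L ℕ S T) :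
    @Theory.Model L (ℕ × ℕ) (mul ℕ S) T := by
  refine model_nat S T fun N => ?_
  have key : ∀ N : ℕ, ∃ A : Type, Countable A ∧ Nonempty A ∧ Big A (N + 1) ∧
      @Theory.Model L (A × ℕ) (mul A S) T := by
    intro N
    induction N with
    | zero =>
      exact ⟨Unit, inferInstance, inferInstance, big_fintype Unit (by simp),
        (riso_unit S).model hS⟩
    | succ N ih =>
      obtain ⟨A, hA, hne, hN, hm⟩ := ih
      have hinf : Infinite (A × ℕ) := inferInstance
      obtain ⟨e⟩ : Nonempty (A × ℕ ≃ ℕ) := nonempty_equiv_of_countable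
      let S' : L.Structure ℕ :=
        { funMap := fun f => isEmptyElim f
          RelMap := fun R t => (mul A S).RelMap R (fun k => e.symm (t k)) }
      have h1 : RIso (mul A S) S' := by
        refine ⟨e, fun R t => ?_⟩
        show _ ↔ (mul A S).RelMap R (fun k => e.symm (e (t k)))
        simp only [Equiv.symm_apply_apply]
      obtain ⟨A', hA', hnt, h2⟩ := hT S' (h1.model hm)
      exact ⟨A' × A, inferInstance, inferInstance, big_prod hnt hN,
        ((h1.mul A').symm.trans (riso_assoc A' A S)).model h2⟩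
  obtain ⟨A, _, _, hN, hm⟩ := key N
  exact ⟨A, hN.mono (Nat.le_succ N), hm⟩

/-! ### Codes -/

/-- Arities. -/
abbrev ar (L : FirstOrder.Language.{0, 0}) : (Σ n, L.Relations n) → ℕ := Sigma.fst

/-- The structure given by an interpretation. -/
@[reducible] def strOf (I : Interp (ar L) M) : L.Structure M where
  funMap f := isEmptyElim f
  RelMap {n} R t := I ⟨n, R⟩ t

/-- The interpretation given by a structure. -/
def interpOf (S : L.Structure M) : Interp (ar L) M := fun i t => S.RelMap i.2 t

theorem giso_riso {I : Interp (ar L) M} {J : Interp (ar L) N} :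
    GIso I J ↔ RIso (strOf I) (strOf J) := by
  constructor
  · rintro ⟨g, hg⟩
    exact ⟨g, fun {n} R t => hg ⟨n, R⟩ t⟩
  · rintro ⟨g, hg⟩
    exact ⟨g, fun i t => hg i.2 t⟩

theorem riso_interpOf (S : L.Structure M) : RIso S (strOf (interpOf S)) :=
  ⟨Equiv.refl M, fun _ _ => Iff.rfl⟩

theorem riso_Pw (I : Interp (ar L) ℕ) : RIso (mul ℕ (strOf I)) (strOf (Pw I)) := by
  refine ⟨Nat.pairEquiv, fun {n} R t => ?_⟩
  show (_ ∧ _) ↔ (_ ∧ _)
  simp only [Nat.pairEquiv_apply, Function.uncurry, Nat.unpair_pair]
  exact Iff.rfl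

theorem meas_realize [Countable L.Symbols] (v : Empty → ℕ) {n : ℕ}
    (φ : L.BoundedFormula Empty n) :
    ∀ xs : Fin n → ℕ, MeasurableSet {c : Code (ar L) |
      @BoundedFormula.Realize L ℕ (strOf (toI c)) Empty n φ v xs} := by
  induction φ with
  | falsum => exact fun xs => MeasurableSet.empty
  | @equal n t1 t2 =>
    intro xs
    obtain ⟨i, rfl⟩ := term_var t1
    obtain ⟨j, rfl⟩ := term_var t2
    exact MeasurableSet.const (xs i = xs j)
  | @rel n l R ts =>
    intro xs
    choose i hi using fun k => term_var (ts k)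
    obtain rfl : ts = fun k => Term.var (Sum.inr (i k)) := funext hi
    exact measurableSet_rel (a := ar L) (⟨l, R⟩ : Σ n, L.Relations n)
      (fun k : Fin l => xs (i k))
  | @imp n f g ihf ihg =>
    intro xs
    have e : {c : Code (ar L) |
        @BoundedFormula.Realize L ℕ (strOf (toI c)) Empty n (f.imp g) v xs} =
      {c : Code (ar L) | @BoundedFormula.Realize L ℕ (strOf (toI c)) Empty n f v xs}ᶜ ∪
      {c : Code (ar L) | @BoundedFormula.Realize L ℕ (strOf (toI c)) Empty n g v xs} := by
      ext c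
      exact imp_iff_not_or
    rw [e]
    exact (ihf xs).compl.union (ihg xs)
  | @all n f ih =>
    intro xs
    have e : {c : Code (ar L) |
        @BoundedFormula.Realize L ℕ (strOf (toI c)) Empty n f.all v xs} =
      ⋂ b : ℕ, {c : Code (ar L) | @BoundedFormula.Realize L ℕ (strOf (toI c)) Empty (n + 1) f
        v (Fin.snoc xs b)} := by
      ext c
      simp only [mem_iInter]
      exact Iff.rfl
    rw [e]
    exact MeasurableSet.iInter fun b => ih _

/-- Vaught's conjecture for first-order theories such that each model has a proper multiple that is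
a model. -/
theorem fo_dich [Countable L.Symbols] (T : L.Theory)
    (hT : ∀ S : L.Structure ℕ, @Theory.Model L ℕ S T → ∃ A : Type, Countable A ∧ Nontrivial A ∧
      @Theory.Model L (A × ℕ) (mul A S) T) :
    (∃ C : Set (L.Structure ℕ), C.Countable ∧ ∀ S : L.Structure ℕ, @Theory.Model L ℕ S T →
      ∃ S' ∈ C, RIso S S') ∨
    (∃ F : (ℕ → Bool) → L.Structure ℕ, (∀ x, @Theory.Model L ℕ (F x) T) ∧
      (∀ (n : ℕ) (R : L.Relations n) (t : Fin n → ℕ), IsClopen {x | (F x).RelMap R t}) ∧
      ∀ x y, RIso (F x) (F y) → x = y) := by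
  have hcR : Countable (Σ n, L.Relations n) :=
    Function.Injective.countable (f := (Sum.inr : (Σ n, L.Relations n) → L.Symbols))
      Sum.inr_injective
  have hcT : T.Countable := to_countable T
  let K : Set (Code (ar L)) := {c | @Theory.Model L ℕ (strOf (toI c)) T}
  have hK : MeasurableSet K := by
    have e : K = ⋂ φ ∈ T, {c : Code (ar L) | @Sentence.Realize L ℕ (strOf (toI c)) φ} := by
      ext c
      simp only [mem_iInter]
      constructor
      · intro h φ hφ
        exact @Theory.Model.realize_of_mem L ℕ (strOf (toI c)) T h φ hφ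
      · intro h
        exact @Theory.Model.mk L ℕ (strOf (toI c)) T fun φ hφ => h φ hφ
    rw [e]
    exact MeasurableSet.biInter hcT fun φ _ => meas_realize _ φ _
  have hinv : ∀ c c' : Code (ar L), GIso (toI c) (toI c') → c ∈ K → c' ∈ K := by
    intro c c' h hc
    exact (giso_riso.1 h).model hc
  have hpw : ∀ c ∈ K, pwc c ∈ K := by
    intro c hc
    show @Theory.Model L ℕ (strOf (toI (pwc c))) T
    rw [toI_pwc]
    exact (riso_Pw (toI c)).model (model_pow T hT _ hc)
  rcases dich_closed hK hinv hpw with ⟨S, hS, hS2⟩ | ⟨f, hf1, hf2, hf3⟩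
  · left
    refine ⟨(fun c => strOf (toI c)) '' S, hS.image _, fun S0 hS0 => ?_⟩
    have h1 : ofI (interpOf S0) ∈ K := by
      show @Theory.Model L ℕ (strOf (toI (ofI (interpOf S0)))) T
      rw [toI_ofI]
      exact (riso_interpOf S0).model hS0
    obtain ⟨c', hc', h⟩ := hS2 _ h1
    refine ⟨_, ⟨c', hc', rfl⟩, ?_⟩
    rw [toI_ofI, giso_riso] at h
    exact (riso_interpOf S0).trans h
  · right
    refine ⟨fun x => strOf (toI (f x)), hf2, fun n R t => ?_, fun x y h => ?_⟩
    · have h1 : Continuous fun x => f x ⟨n, R⟩ t :=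
        (continuous_apply t).comp ((continuous_apply (⟨n, R⟩ : Σ n, L.Relations n)).comp hf1)
      exact (isClopen_discrete {true}).preimage h1
    · exact hf3 x y (giso_riso.2 h)

end Pool.Agent.H623R2.VE
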