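import Pool.Agent.H623R2.VE.FO

set_option autoImplicit false
set_option linter.unusedSectionVars false

/-!
The first-order theory of an infinite disjoint power is closed under doubling.
-/

namespace Pool.Agent.H623R2.VE

open Set FirstOrder FirstOrder.Language

variable {L : FirstOrder.Language.{0, 0}} [L.IsRelational] {M N : Type}

/-- The value of a variable. -/
def tv {n : ℕ} (β : Fin n → Bool) : L.Term (Empty ⊕ Fin n) → Bool
  | .var (Sum.inl e) => e.elim
  | .var (Sum.inr i) => β i
  | .func f _ => isEmptyElim f

open Classical in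
/-- Translation of a statement about two copies. -/
noncomputable def tr : ∀ {n : ℕ}, L.BoundedFormula Empty n → (Fin n → Bool) →
    L.BoundedFormula Empty n
  | _, .falsum, _ => .falsum
  | _, .equal t1 t2, β => if tv β t1 = tv β t2 then .equal t1 t2 else .falsum
  | _, .rel R ts, β => if ∀ k l, tv β (ts k) = tv β (ts l) then .rel R ts else .falsum
  | _, .imp f g, β => .imp (tr f β) (tr g β)
  | _, .all f, β => (tr f (Fin.snoc β false)).all ⊓ (tr f (Fin.snoc β true)).all

theorem snoc_fst {n : ℕ} (v : Fin n → Bool × M) (b : Bool × M) :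
    (fun i => ((Fin.snoc v b : Fin (n + 1) → Bool × M) i).1) =
      (Fin.snoc (fun i => (v i).1) b.1 : Fin (n + 1) → Bool) := by
  funext i
  refine Fin.lastCases ?_ (fun i => ?_) i
  · simp only [Fin.snoc_last]
  · simp only [Fin.snoc_castSucc]

theorem snoc_snd {n : ℕ} (v : Fin n → Bool × M) (b : Bool × M) :
    (fun i => ((Fin.snoc v b : Fin (n + 1) → Bool × M) i).2) =
      (Fin.snoc (fun i => (v i).2) b.2 : Fin (n + 1) → M) := by
  funext i
  refine Fin.lastCases ?_ (fun i => ?_) i
  · simp only [Fin.snoc_last]
  · simp only [Fin.snoc_castSucc]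

theorem tr_spec (S : L.Structure M) {n : ℕ} (φ : L.BoundedFormula Empty n) :
    ∀ v : Fin n → Bool × M,
      @BoundedFormula.Realize L (Bool × M) (mul Bool S) Empty n φ default v ↔
      @BoundedFormula.Realize L M S Empty n (tr φ (fun i => (v i).1)) default
        (fun i => (v i).2) := by
  classical
  induction φ with
  | falsum => exact fun _ => Iff.rfl
  | @equal n t1 t2 =>
    intro v
    obtain ⟨i, rfl⟩ := term_var t1
    obtain ⟨j, rfl⟩ := term_var t2
    have h1 : tr (.equal (Term.var (Sum.inr i)) (Term.var (Sum.inr j)) : L.BoundedFormula Empty n)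
      (fun i => (v i).1) = if (v i).1 = (v j).1 then
        .equal (Term.var (Sum.inr i)) (Term.var (Sum.inr j)) else .falsum := rfl
    rw [h1]
    change v i = v j ↔ _
    split_ifs with h
    · change _ ↔ (v i).2 = (v j).2
      exact ⟨fun h' => congrArg Prod.snd h', fun h' => Prod.ext h h'⟩
    · change _ ↔ False
      exact ⟨fun h' => h (congrArg Prod.fst h'), False.elim⟩
  | @rel n l R ts =>
    intro v
    choose i hi using fun k => term_var (ts k)
    obtain rfl : ts = fun k => Term.var (Sum.inr (i k)) := funext hi
    have h1 : tr (.rel R (fun k => Term.var (Sum.inr (i k))) : L.BoundedFormula Empty n)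
      (fun i => (v i).1) = if ∀ k l, (v (i k)).1 = (v (i l)).1 then
        .rel R (fun k => Term.var (Sum.inr (i k))) else .falsum := rfl
    rw [h1]
    change (_ ∧ _) ↔ _
    split_ifs with h
    · exact ⟨fun h' => h'.2, fun h' => ⟨h, h'⟩⟩
    · exact ⟨fun h' => h h'.1, False.elim⟩
  | @imp n f g ihf ihg =>
    intro v
    exact imp_congr (ihf v) (ihg v)
  | @all n f ih =>
    intro v
    change (∀ b : Bool × M, _) ↔ _
    have h1 : @BoundedFormula.Realize L M S Empty n (tr f.all (fun i => (v i).1)) default
        (fun i => (v i).2) ↔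
        (∀ x : M, @BoundedFormula.Realize L M S Empty (n + 1)
          (tr f (Fin.snoc (fun i => (v i).1) false)) default (Fin.snoc (fun i => (v i).2) x)) ∧
        (∀ x : M, @BoundedFormula.Realize L M S Empty (n + 1)
          (tr f (Fin.snoc (fun i => (v i).1) true)) default (Fin.snoc (fun i => (v i).2) x)) := by
      let _ := S
      exact BoundedFormula.realize_inf
    rw [h1]
    constructor
    · intro h
      refine ⟨fun x => ?_, fun x => ?_⟩
      · have h2 := (ih _).1 (h (false, x))
        rwa [snoc_fst, snoc_snd] at h2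
      · have h2 := (ih _).1 (h (true, x))
        rwa [snoc_fst, snoc_snd] at h2
    · rintro ⟨h2, h3⟩ ⟨b, x⟩
      refine (ih _).2 ?_
      rw [snoc_fst, snoc_snd]
      cases b
      · exact h2 x
      · exact h3 x

/-- The theory of an infinite disjoint power is closed under doubling. -/
theorem closed_th (S0 : L.Structure M) (S : L.Structure N)
    (hS : @Theory.Model L N S {φ | @Sentence.Realize L (ℕ × M) (mul ℕ S0) φ}) :
    @Theory.Model L (Bool × N) (mul Bool S)
      {φ | @Sentence.Realize L (ℕ × M) (mul ℕ S0) φ} := by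
  have key : ∀ (M : Type) (S : L.Structure M) (φ : L.Sentence),
      @Sentence.Realize L (Bool × M) (mul Bool S) φ ↔
        @Sentence.Realize L M S (tr φ default) := by
    intro M S φ
    have h := tr_spec S φ default
    have e1 : (fun i : Fin 0 => ((default : Fin 0 → Bool × M) i).1) = default := by
      funext i
      exact i.elim0
    have e2 : (fun i : Fin 0 => ((default : Fin 0 → Bool × M) i).2) = default := by
      funext i
      exact i.elim0
    rw [e1, e2] at h
    exact h
  have hiso : RIso (mul ℕ S0) (mul Bool (mul ℕ S0)) := by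
    obtain ⟨e⟩ : Nonempty (Bool × ℕ ≃ ℕ) := nonempty_equiv_of_countable
    exact ((riso_assoc Bool ℕ S0).trans (riso_index e S0)).symm
  refine @Theory.Model.mk L (Bool × N) (mul Bool S) _ fun φ hφ => ?_
  rw [key]
  refine @Theory.Model.realize_of_mem L N S _ hS _ ?_
  show @Sentence.Realize L (ℕ × M) (mul ℕ S0) (tr φ default)
  rw [← key]
  have h1 : @Theory.Model L (ℕ × M) (mul ℕ S0) {φ} :=
    @Theory.Model.mk L (ℕ × M) (mul ℕ S0) _ fun ψ hψ => by
      rw [mem_singleton_iff] at hψ
      rw [hψ]
      exact hφ
  exact @Theory.Model.realize_of_mem L _ _ _ (hiso.model h1) φ (mem_singleton φ)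

end Pool.Agent.H623R2.VE
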