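import Pool.Agent.H623R2.VE.Det

set_option autoImplicit false
set_option linter.unusedSectionVars false

/-!
Membership of a generic copy in a Borel set, in terms of finite injections.
-/

namespace Pool.Agent.H623R2.VE

open Set MeasureTheory

variable {Idx : Type} [Countable Idx] {a : Idx → ℕ}

/-- `v` is injective on `{0, …, n - 1}`. -/
def Inj (n : ℕ) (v : ℕ → ℕ) : Prop := ∀ i j, i < n → j < n → v i = v j → i = j

theorem Inj.mono {n m : ℕ} (h : n ≤ m) {v : ℕ → ℕ} (hv : Inj m v) : Inj n v :=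
  fun i j hi hj => hv i j (hi.trans_le h) (hj.trans_le h)

theorem Inj.congr {n : ℕ} {v w : ℕ → ℕ} (h : ∀ i < n, v i = w i) (hv : Inj n v) : Inj n w := by
  intro i j hi hj e
  rw [← h i hi, ← h j hj] at e
  exact hv i j hi hj e

/-- Dense sets of finite injections. -/
structure Dns (D : ℕ → (ℕ → ℕ) → Prop) : Prop where
  loc : ∀ n v w, (∀ i < n, v i = w i) → D n v → D n w
  dns : ∀ n v, Inj n v → ∃ m w, n ≤ m ∧ Inj m w ∧ (∀ i < n, w i = v i) ∧ D m w

theorem exists_inj_extend (n : ℕ) (v : ℕ → ℕ) (hv : Inj n v) :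
    ∃ w : ℕ → ℕ, (∀ i < n, w i = v i) ∧ Function.Injective w := by
  let M := (Finset.range n).sup v + 1
  have hM : ∀ i < n, v i < M := fun i hi =>
    Nat.lt_succ_of_le (Finset.le_sup (f := v) (Finset.mem_range.2 hi))
  refine ⟨fun i => if i < n then v i else M + i, fun i hi => if_pos hi, ?_⟩
  intro i j e
  simp only at e
  by_cases hi : i < n
  · by_cases hj : j < n
    · rw [if_pos hi, if_pos hj] at e
      exact hv i j hi hj e
    · rw [if_pos hi, if_neg hj] at e
      have := hM i hi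
      omega
  · by_cases hj : j < n
    · rw [if_neg hi, if_pos hj] at e
      have := hM j hj
      omega
    · rw [if_neg hi, if_neg hj] at e
      omega

theorem Inj.snoc {n : ℕ} {v : ℕ → ℕ} (hv : Inj n v) {y : ℕ} (hy : ∀ i < n, v i ≠ y) :
    Inj (n + 1) (Function.update v n y) := by
  intro i j hi hj e
  rcases Nat.lt_succ_iff_lt_or_eq.1 hi with hi | hi
  · rcases Nat.lt_succ_iff_lt_or_eq.1 hj with hj | hj
    · rw [Function.update_of_ne hi.ne, Function.update_of_ne hj.ne] at e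
      exact hv i j hi hj e
    · rw [hj, Function.update_self, Function.update_of_ne hi.ne] at e
      exact absurd e (hy i hi)
  · rcases Nat.lt_succ_iff_lt_or_eq.1 hj with hj | hj
    · rw [hi, Function.update_self, Function.update_of_ne hj.ne] at e
      exact absurd e.symm (hy j hj)
    · rw [hi, hj]

/-- One step of the construction of a generic permutation. -/
theorem step {D : ℕ → (ℕ → ℕ) → Prop} (hD : Dns D) (k n : ℕ) (v : ℕ → ℕ) (hv : Inj n v) :
    ∃ m w, n ≤ m ∧ Inj m w ∧ (∀ i < n, w i = v i) ∧ k < m ∧ (∃ i < m, w i = k) ∧ D m w := by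
  -- make `k` a value
  obtain ⟨n1, v1, h1, h2, h3, h4⟩ : ∃ m w, n ≤ m ∧ Inj m w ∧ (∀ i < n, w i = v i) ∧
      (∃ i < m, w i = k) := by
    by_cases hk : ∃ i < n, v i = k
    · exact ⟨n, v, le_refl n, hv, fun i _ => rfl, hk⟩
    · push Not at hk
      refine ⟨n + 1, Function.update v n k, Nat.le_succ n, hv.snoc hk, fun i hi => ?_,
        n, Nat.lt_succ_self n, Function.update_self _ _ _⟩
      exact Function.update_of_ne hi.ne _ _
  obtain ⟨v2, h5, h6⟩ := exists_inj_extend n1 v1 h2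
  obtain ⟨m, w, h7, h8, h9, h10⟩ := hD.dns (max n1 (k + 1)) v2
    (fun i j _ _ e => h6 e)
  refine ⟨m, w, h1.trans ((le_max_left _ _).trans h7), h8, fun i hi => ?_,
    (Nat.lt_succ_self k).trans_le ((le_max_right _ _).trans h7), ?_, h10⟩
  · have hi1 : i < n1 := hi.trans_le h1
    rw [h9 i (hi1.trans_le (le_max_left _ _)), h5 i hi1, h3 i hi]
  · obtain ⟨i, hi, e⟩ := h4
    have hi2 : i < max n1 (k + 1) := hi.trans_le (le_max_left _ _)
    exact ⟨i, hi2.trans_le h7, by rw [h9 i hi2, h5 i hi, e]⟩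

theorem exists_generic (W : ℕ → ℕ → (ℕ → ℕ) → Prop) (hW : ∀ k, Dns (W k)) (n0 : ℕ)
    (v0 : ℕ → ℕ) (h0 : Inj n0 v0) :
    ∃ g : ℕ ≃ ℕ, (∀ i < n0, g i = v0 i) ∧ ∀ k, ∃ n, W k n g := by
  let Cnd : Type := {p : ℕ × (ℕ → ℕ) // Inj p.1 p.2}
  have hstep : ∀ (k : ℕ) (p : Cnd), ∃ q : Cnd, p.1.1 ≤ q.1.1 ∧ (∀ i < p.1.1, q.1.2 i = p.1.2 i) ∧
      k < q.1.1 ∧ (∃ i < q.1.1, q.1.2 i = k) ∧ W k q.1.1 q.1.2 := by
    intro k p
    obtain ⟨m, w, h1, h2, h3, h4, h5, h6⟩ := step (hW k) k p.1.1 p.1.2 p.2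
    exact ⟨⟨(m, w), h2⟩, h1, h3, h4, h5, h6⟩
  choose nx hnx using hstep
  let c : ℕ → Cnd := fun k => Nat.rec (motive := fun _ => Cnd) ⟨(n0, v0), h0⟩
    (fun k p => nx k p) k
  have hc0 : c 0 = ⟨(n0, v0), h0⟩ := rfl
  have hcs : ∀ k, c (k + 1) = nx k (c k) := fun _ => rfl
  have hle : ∀ k l, k ≤ l → (c k).1.1 ≤ (c l).1.1 ∧
      ∀ i < (c k).1.1, (c l).1.2 i = (c k).1.2 i := by
    intro k l hkl
    induction l, hkl using Nat.le_induction with
    | base => exact ⟨le_refl _, fun _ _ => rfl⟩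
    | succ l _ ih =>
      have h := hnx l (c l)
      rw [← hcs] at h
      refine ⟨ih.1.trans h.1, fun i hi => ?_⟩
      rw [h.2.1 i (hi.trans_le ih.1), ih.2 i hi]
  have hlt : ∀ k, k < (c (k + 1)).1.1 := by
    intro k
    rw [hcs]
    exact (hnx k (c k)).2.2.1
  let g : ℕ → ℕ := fun i => (c (i + 1)).1.2 i
  have hg : ∀ k i, i < (c k).1.1 → g i = (c k).1.2 i := by
    intro k i hi
    rcases le_total k (i + 1) with h | h
    · exact (hle _ _ h).2 i hi
    · exact ((hle _ _ h).2 i (hlt i)).symm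
  have hinj : Function.Injective g := by
    intro i j e
    have hi : i < (c (max i j + 1)).1.1 := (le_max_left i j).trans_lt (hlt _)
    have hj : j < (c (max i j + 1)).1.1 := (le_max_right i j).trans_lt (hlt _)
    rw [hg (max i j + 1) i hi, hg (max i j + 1) j hj] at e
    exact (c (max i j + 1)).2 i j hi hj e
  have hsurj : Function.Surjective g := by
    intro k
    have h := (hnx k (c k)).2.2.2.1
    rw [← hcs] at h
    obtain ⟨i, hi, e⟩ := h
    exact ⟨i, by rw [hg (k + 1) i hi, e]⟩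
  refine ⟨Equiv.ofBijective g ⟨hinj, hsurj⟩, fun i hi => ?_, fun k => ?_⟩
  · show g i = v0 i
    rw [hg 0 i hi]
    rfl
  · refine ⟨(c (k + 1)).1.1, ?_⟩
    show W k (c (k + 1)).1.1 g
    have h := (hnx k (c k)).2.2.2.2
    rw [← hcs] at h
    exact (hW k).loc _ _ _ (fun i hi => (hg (k + 1) i hi).symm) h

/-- A description of the membership of generic copies in `B`. -/
structure Frc (K : Set (Code a)) (B : Set (Code a)) (Φ : ℕ → Query a) : Prop where
  det : ∀ n, Det K (Finset.range n) (Φ n)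
  loc : ∀ n I v w, (∀ i < n, v i = w i) → Φ n I v → Φ n I w
  mono : ∀ n m I v, n ≤ m → Inj m v → Φ n I v → Φ m I v
  gen : ∀ I : Interp a ℕ, ∃ W : ℕ → ℕ → (ℕ → ℕ) → Prop, (∀ k, Dns (W k)) ∧
    ∀ g : ℕ → ℕ, Function.Injective g → (∀ k, ∃ n, W k n g) →
      (ofI (pull I g) ∈ B ↔ ∃ n, Φ n I g)

theorem Det.injq {K : Set (Code a)} (n : ℕ) : Det K (Finset.range n) (fun _ v => Inj n v) := by
  unfold Inj
  refine Det.iAll fun i => Det.iAll fun j => ?_
  by_cases hi : i < n
  · by_cases hj : j < n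
    · by_cases hij : i = j
      · refine (Det.const (K := K) (F := Finset.range n) True).congr fun I v => ?_
        simp [hij]
      · refine (Det.eq (K := K) (Finset.mem_range.2 hi) (Finset.mem_range.2 hj)).not.congr
          fun I v => ?_
        simp [hi, hj, hij]
    · refine (Det.const (K := K) (F := Finset.range n) True).congr fun I v => ?_
      simp [hj]
  · refine (Det.const (K := K) (F := Finset.range n) True).congr fun I v => ?_
    simp [hi]

/-- Some extension of `v` to an injection on `m` satisfies `Φ`. -/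
def Exq (Φ : Query a) (k m : ℕ) : Query a := fun I v =>
  ∃ w, (∀ i < k, w i = v i) ∧ Inj m w ∧ Φ I w

theorem Exq.det {K : Set (Code a)} (hK : MeasurableSet K) (hP : ¬ Perf CovE K) {Φ : Query a} {m : ℕ}
    (hΦ : Det K (Finset.range m) Φ) (hloc : ∀ I v w, (∀ i < m, v i = w i) → Φ I v → Φ I w)
    (k : ℕ) (hk : k ≤ m) : Det K (Finset.range k) (Exq Φ k m) := by
  induction hk using Nat.decreasingInduction with
  | self =>
    refine ((Det.injq m).and hΦ).congr fun I v => ?_
    constructor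
    · rintro ⟨h1, h2⟩
      exact ⟨v, fun _ _ => rfl, h1, h2⟩
    · rintro ⟨w, h1, h2, h3⟩
      exact ⟨h2.congr h1, hloc I w v h1 h3⟩
  | of_succ k hk ih =>
    rw [Finset.range_add_one] at ih
    refine (ih.ex hK hP).congr fun I v => ?_
    constructor
    · rintro ⟨b, w, h1, h2, h3⟩
      refine ⟨w, fun i hi => ?_, h2, h3⟩
      rw [h1 i (Nat.lt_succ_of_lt hi), Function.update_of_ne hi.ne]
    · rintro ⟨w, h1, h2, h3⟩
      refine ⟨w k, w, fun i hi => ?_, h2, h3⟩
      rcases Nat.lt_succ_iff_lt_or_eq.1 hi with hi | hi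
      · rw [Function.update_of_ne hi.ne, h1 i hi]
      · rw [hi, Function.update_self]

theorem Frc.empty (K : Set (Code a)) : Frc K ∅ (fun _ _ _ => False) := by
  refine ⟨fun n => Det.const _, fun _ _ _ _ _ h => h, fun _ _ _ _ _ _ h => h, fun I => ?_⟩
  refine ⟨fun _ _ _ => True, fun _ => ⟨fun _ _ _ _ h => h, fun n v hv =>
    ⟨n, v, le_refl n, hv, fun _ _ => rfl, trivial⟩⟩, fun g _ _ => ?_⟩
  simp

theorem Frc.basic (K : Set (Code a)) (i : Idx) (t : Fin (a i) → ℕ) :
    Frc K {c | c i t = true} (fun n I v => (∀ k, t k < n) ∧ I i (fun k => v (t k))) := by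
  refine ⟨fun n => ?_, ?_, ?_, ?_⟩
  · by_cases h : ∀ k, t k < n
    · refine (Det.rel (K := K) (F := Finset.range n) t
        (fun k => Finset.mem_range.2 (h k))).congr fun I v => ?_
      simp [h]
    · refine (Det.const (K := K) (F := Finset.range n) False).congr fun I v => ?_
      constructor
      · exact fun h => h.elim
      · exact fun h' => h h'.1
  · rintro n I v w h ⟨h1, h2⟩
    refine ⟨h1, ?_⟩
    have : (fun k => w (t k)) = fun k => v (t k) := by
      funext k
      exact (h _ (h1 k)).symm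
    rw [this]
    exact h2
  · rintro n m I v h _ ⟨h1, h2⟩
    exact ⟨fun k => (h1 k).trans_le h, h2⟩
  · intro I
    refine ⟨fun _ _ _ => True, fun _ => ⟨fun _ _ _ _ h => h, fun n v hv =>
      ⟨n, v, le_refl n, hv, fun _ _ => rfl, trivial⟩⟩, fun g _ _ => ?_⟩
    have e : ofI (pull I g) ∈ {c : Code a | c i t = true} ↔ I i (fun k => g (t k)) := by
      have h1 : toI (ofI (pull I g)) i t ↔ pull I g i t := by rw [toI_ofI]
      exact h1
    rw [e]
    constructor
    · intro h
      refine ⟨Finset.univ.sup t + 1, fun k => ?_, h⟩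
      exact Nat.lt_succ_of_le (Finset.le_sup (f := t) (Finset.mem_univ k))
    · rintro ⟨_, _, h⟩
      exact h

theorem Frc.compl {K : Set (Code a)} (hK : MeasurableSet K) (hP : ¬ Perf CovE K) {B : Set (Code a)}
    {Φ : ℕ → Query a} (h : Frc K B Φ) :
    Frc K Bᶜ (fun n I v => ∀ m w, n ≤ m → Inj m w → (∀ i < n, w i = v i) → ¬ Φ m I w) := by
  refine ⟨fun n => ?_, ?_, ?_, ?_⟩
  · have h1 : ∀ m, Det K (Finset.range n) (fun I v => n ≤ m → ¬ Exq (Φ m) n m I v) := by
      intro m
      by_cases hm : n ≤ m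
      · refine (Exq.det hK hP (h.det m) (h.loc m) n hm).not.congr fun I v => ?_
        simp [hm]
      · refine (Det.const (K := K) (F := Finset.range n) True).congr fun I v => ?_
        simp [hm]
    refine (Det.iAll h1).congr fun I v => ?_
    constructor
    · intro h2 m w h3 h4 h5 h6
      exact h2 m h3 ⟨w, h5, h4, h6⟩
    · rintro h2 m h3 ⟨w, h5, h4, h6⟩
      exact h2 m w h3 h4 h5 h6
  · intro n I v w h1 h2 m u h3 h4 h5
    exact h2 m u h3 h4 (fun i hi => (h5 i hi).trans (h1 i hi).symm)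
  · intro n m I v h1 _ h2 m' u h3 h4 h5
    exact h2 m' u (h1.trans h3) h4 (fun i hi => h5 i (hi.trans_le h1))
  · intro I
    obtain ⟨W, hW, hg⟩ := h.gen I
    let D : ℕ → (ℕ → ℕ) → Prop := fun n v => Φ n I v ∨
      ∀ m w, n ≤ m → Inj m w → (∀ i < n, w i = v i) → ¬ Φ m I w
    have hD : Dns D := by
      refine ⟨?_, ?_⟩
      · rintro n v w h1 (h2 | h2)
        · exact Or.inl (h.loc n I v w h1 h2)
        · exact Or.inr fun m u h3 h4 h5 => h2 m u h3 h4 (fun i hi => (h5 i hi).trans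
            (h1 i hi).symm)
      · intro n v hv
        by_cases h1 : ∃ m w, n ≤ m ∧ Inj m w ∧ (∀ i < n, w i = v i) ∧ Φ m I w
        · obtain ⟨m, w, h2, h3, h4, h5⟩ := h1
          exact ⟨m, w, h2, h3, h4, Or.inl h5⟩
        · refine ⟨n, v, le_refl n, hv, fun _ _ => rfl, Or.inr fun m w h2 h3 h4 h5 => ?_⟩
          exact h1 ⟨m, w, h2, h3, h4, h5⟩
    refine ⟨fun k => Nat.casesOn k D W, fun k => ?_, fun g hinj hgen => ?_⟩
    · cases k with
      | zero => exact hD
      | succ k => exact hW k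
    · rw [mem_compl_iff, hg g hinj (fun k => hgen (k + 1))]
      constructor
      · intro h1
        obtain ⟨n, hn⟩ := hgen 0
        rcases hn with hn | hn
        · exact absurd ⟨n, hn⟩ h1
        · exact ⟨n, hn⟩
      · rintro ⟨n, hn⟩ ⟨m, hm⟩
        refine hn (max n m) g (le_max_left n m) (fun i j _ _ e => hinj e) (fun _ _ => rfl) ?_
        exact h.mono m _ I g (le_max_right n m) (fun i j _ _ e => hinj e) hm

theorem Frc.iUnion {K : Set (Code a)} {B : ℕ → Set (Code a)} {Φ : ℕ → ℕ → Query a}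
    (h : ∀ k, Frc K (B k) (Φ k)) : Frc K (⋃ k, B k) (fun n I v => ∃ k, Φ k n I v) := by
  refine ⟨fun n => Det.iEx fun k => (h k).det n, ?_, ?_, ?_⟩
  · rintro n I v w h1 ⟨k, h2⟩
    exact ⟨k, (h k).loc n I v w h1 h2⟩
  · rintro n m I v h1 h2 ⟨k, h3⟩
    exact ⟨k, (h k).mono n m I v h1 h2 h3⟩
  · intro I
    have h1 := fun k => (h k).gen I
    choose W hW hg using h1
    refine ⟨fun j => W (Nat.unpair j).1 (Nat.unpair j).2, fun j => hW _ _, fun g hinj hgen => ?_⟩
    have h2 : ∀ k, (ofI (pull I g) ∈ B k ↔ ∃ n, Φ k n I g) := by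
      intro k
      refine hg k g hinj fun j => ?_
      have := hgen (Nat.pair k j)
      simpa using this
    rw [mem_iUnion]
    constructor
    · rintro ⟨k, hk⟩
      obtain ⟨n, hn⟩ := (h2 k).1 hk
      exact ⟨n, k, hn⟩
    · rintro ⟨n, k, hn⟩
      exact ⟨k, (h2 k).2 ⟨n, hn⟩⟩

theorem exists_frc {K : Set (Code a)} (hK : MeasurableSet K) (hP : ¬ Perf CovE K) {B : Set (Code a)}
    (hB : MeasurableSet B) : ∃ Φ, Frc K B Φ := by
  let m' : MeasurableSpace (Code a) :=
    { MeasurableSet' := fun B => ∃ Φ, Frc K B Φ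
      measurableSet_empty := ⟨_, Frc.empty K⟩
      measurableSet_compl := fun B ⟨Φ, h⟩ => ⟨_, h.compl hK hP⟩
      measurableSet_iUnion := fun B h => by
        choose Φ hΦ using h
        exact ⟨_, Frc.iUnion hΦ⟩ }
  have h1 : @Measurable (Code a) (Code a) m' MeasurableSpace.pi id := by
    refine @measurable_pi_lambda (Code a) Idx (fun i => (Fin (a i) → ℕ) → Bool) m'
      (fun _ => MeasurableSpace.pi) id fun i => ?_
    refine @measurable_pi_lambda (Code a) (Fin (a i) → ℕ) (fun _ => Bool) m'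
      (fun _ => inferInstance) (fun c => c i) fun t => ?_
    refine @measurable_to_bool (Code a) m' (fun c => c i t) ?_
    exact ⟨_, Frc.basic K i t⟩
  have h2 : @MeasurableSet (Code a) m' (id ⁻¹' B) := h1 hB
  exact h2

/-- Membership in an invariant Borel set `K` without a perfect set of pairwise non-isomorphic
members is determined, on structures whose components occur in `K` with infinite multiplicity, by
countably many local queries. -/
theorem det_mem {K : Set (Code a)} (hK : MeasurableSet K) (hP : ¬ Perf CovE K)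
    (hinv : ∀ c c' : Code a, GIso (toI c) (toI c') → c ∈ K → c' ∈ K) :
    Det K ∅ (fun I _ => ofI I ∈ K) := by
  obtain ⟨Φ, hΦ⟩ := exists_frc hK hP hK
  have h1 : Det K (Finset.range 0) (fun I v => ∃ m, Exq (Φ m) 0 m I v) :=
    Det.iEx fun m => Exq.det hK hP (hΦ.det m) (hΦ.loc m) 0 (Nat.zero_le m)
  have hiso : ∀ (I : Interp a ℕ) (g : ℕ ≃ ℕ), ofI (pull I g) ∈ K ↔ ofI I ∈ K := by
    intro I g
    have h2 : GIso (pull I g) I := ⟨g, fun _ _ => Iff.rfl⟩
    constructor
    · intro h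
      refine hinv _ _ ?_ h
      rw [toI_ofI, toI_ofI]
      exact h2
    · intro h
      refine hinv _ _ ?_ h
      rw [toI_ofI, toI_ofI]
      exact h2.symm
  refine h1.congr fun I v => ?_
  obtain ⟨W, hW, hg⟩ := hΦ.gen I
  constructor
  · rintro ⟨m, w, _, h2, h3⟩
    obtain ⟨g, h4, h5⟩ := exists_generic W hW m w h2
    rw [← hiso I g, hg g g.injective h5]
    exact ⟨m, hΦ.loc m I w g (fun i hi => (h4 i hi).symm) h3⟩
  · intro h
    obtain ⟨g, _, h5⟩ := exists_generic W hW 0 (fun n => n)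
      (fun i _ hi _ _ => absurd hi (Nat.not_lt_zero i))
    rw [← hiso I g, hg g g.injective h5] at h
    obtain ⟨n, hn⟩ := h
    exact ⟨n, g, fun i hi => absurd hi (Nat.not_lt_zero i), fun i j _ _ e => g.injective e, hn⟩

end Pool.Agent.H623R2.VE
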