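import Pool.Agent.H623R2.VE.Core

set_option autoImplicit false
set_option linter.unusedSectionVars false

/-!
Structures all of whose components have one of countably many isomorphism types.
-/

namespace Pool.Agent.H623R2.VE

open Set MeasureTheory

variable {Idx : Type} [Countable Idx] {a : Idx → ℕ}

theorem Perf.mono {E : Interp a ℕ → Interp a ℕ → Prop} {K K' : Set (Code a)} (h : K ⊆ K')
    (hP : Perf E K) : Perf E K' := by
  obtain ⟨f, h1, h2, h3⟩ := hP
  exact ⟨f, h1, fun x => h (h2 x), h3⟩

theorem exists_reps {A B : Type} (F : A → B) (h : (range F).Countable) :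
    ∃ G : Set A, G.Countable ∧ ∀ a, ∃ a' ∈ G, F a' = F a := by
  classical
  have : Countable (range F) := h.to_subtype
  refine ⟨range (fun b : range F => b.2.choose), countable_range _, fun a => ?_⟩
  exact ⟨_, ⟨⟨F a, a, rfl⟩, rfl⟩, (⟨a, rfl⟩ : ∃ y, F y = F a).choose_spec⟩

theorem equiv_of_emb {A B : Type} [Countable A] [Countable B]
    (h : ∀ k : ℕ, Nonempty (Fin (k + 1) ↪ A) ↔ Nonempty (Fin (k + 1) ↪ B)) :
    Nonempty (A ≃ B) := by
  classical
  have key : ∀ (C D : Type), (∀ k : ℕ, Nonempty (Fin (k + 1) ↪ C) ↔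
      Nonempty (Fin (k + 1) ↪ D)) → Finite D → Finite C := by
    intro C D hCD hD
    by_contra hC
    rw [not_finite_iff_infinite] at hC
    have := Fintype.ofFinite D
    obtain ⟨e⟩ := (hCD (Fintype.card D)).1 ⟨(Fin.valEmbedding).trans (Infinite.natEmbedding C)⟩
    have := Fintype.card_le_of_embedding e
    simp at this
  have key2 : ∀ (C D : Type) [Fintype C] [Fintype D], (∀ k : ℕ, Nonempty (Fin (k + 1) ↪ C) ↔
      Nonempty (Fin (k + 1) ↪ D)) → Fintype.card C ≤ Fintype.card D := by
    intro C D _ _ hCD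
    rcases Nat.eq_zero_or_pos (Fintype.card C) with h0 | h0
    · rw [h0]; exact Nat.zero_le _
    · obtain ⟨k, hk⟩ := Nat.exists_eq_succ_of_ne_zero h0.ne'
      obtain ⟨e⟩ := (hCD k).1 ⟨(Fintype.equivFinOfCardEq hk).symm.toEmbedding⟩
      have := Fintype.card_le_of_embedding e
      rw [Fintype.card_fin] at this
      rw [hk]
      exact this
  by_cases hB : Finite B
  · have hA : Finite A := key A B h hB
    have := Fintype.ofFinite A
    have := Fintype.ofFinite B
    exact ⟨Fintype.equivOfCardEq (le_antisymm (key2 A B h) (key2 B A fun k => (h k).symm))⟩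
  · have hA : ¬ Finite A := fun hA => hB (key B A (fun k => (h k).symm) hA)
    rw [not_finite_iff_infinite] at hA hB
    exact nonempty_equiv_of_countable

theorem emb_iff (I : Interp a ℕ) (R : ℕ → Prop) (hR : ∀ x y, Conn I x y → R x → R y) (k : ℕ) :
    (∃ v : Fin (k + 1) → ℕ, (∀ i j, Conn I (v i) (v j) → i = j) ∧ ∀ i, R (v i)) ↔
      Nonempty (Fin (k + 1) ↪ {κ : Comp I // R κ.out}) := by
  have hout : ∀ x, Conn I (Quotient.mk (compSetoid I) x).out x := fun x =>
    (Quotient.eq (r := compSetoid I)).1 (Quotient.out_eq (Quotient.mk (compSetoid I) x))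
  constructor
  · rintro ⟨v, h1, h2⟩
    refine ⟨⟨fun i => ⟨Quotient.mk (compSetoid I) (v i), hR _ _ (hout _).symm (h2 i)⟩, ?_⟩⟩
    intro i j h
    have h3 := congrArg Subtype.val h
    exact h1 i j ((Quotient.eq (r := compSetoid I)).1 h3)
  · rintro ⟨e⟩
    refine ⟨fun i => (e i).1.out, fun i j h => ?_, fun i => (e i).2⟩
    apply e.injective
    apply Subtype.ext
    rw [← Quotient.out_eq (e i).1, ← Quotient.out_eq (e j).1]
    exact Quotient.sound h

/-! ### Measurability of the types of components -/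

theorem meas_ciso (d : Interp a ℕ) (x e : ℕ) :
    MeasurableSet {p : Code a × (ℕ → ℕ) | CIso (toI p.1) d p.2 x ∧ Conn d (p.2 x) e} := by
  have hconn : ∀ y y', Measurable fun p : Code a × (ℕ → ℕ) => Conn (toI p.1) y y' := fun y y' =>
    measurableSet_setOfPred.1 (measurable_fst (measurableSet_conn y y'))
  have hrel : ∀ i (t : Fin (a i) → ℕ), Measurable fun p : Code a × (ℕ → ℕ) => toI p.1 i t :=
    fun i t => measurableSet_setOfPred.1 (measurable_fst (measurableSet_rel i t))
  have hg : ∀ y, Measurable fun p : Code a × (ℕ → ℕ) => p.2 y := fun y =>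
    (measurable_pi_apply y).comp measurable_snd
  have hdc : ∀ (Q : (ℕ → ℕ) → Prop) (s : Finset ℕ), (∀ g g' : ℕ → ℕ, (∀ y ∈ s, g y = g' y) →
      Q g → Q g') → Measurable fun p : Code a × (ℕ → ℕ) => Q p.2 := by
    intro Q s hQ
    have h1 : (fun p : Code a × (ℕ → ℕ) => Q p.2) = fun p => ∃ w : s → ℕ,
        Q (ext0 s w) ∧ ∀ y : s, p.2 y = w y := by
      funext p
      apply propext
      constructor
      · intro h
        refine ⟨fun y => p.2 y, hQ _ _ (fun y hy => ?_) h, fun y => rfl⟩
        rw [ext0_mem hy]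
      · rintro ⟨w, h, hw⟩
        refine hQ _ _ (fun y hy => ?_) h
        rw [ext0_mem hy, hw ⟨y, hy⟩]
    rw [h1]
    refine Measurable.exists fun w => Measurable.and measurable_const ?_
    refine Measurable.forall fun y => ?_
    exact measurableSet_setOfPred.1 (hg y (measurableSet_singleton (w y)))
  refine measurableSet_setOfPred.2 ?_
  have e1 : (fun p : Code a × (ℕ → ℕ) => CIso (toI p.1) d p.2 x ∧ Conn d (p.2 x) e) = fun p =>
      ((∀ y y', Conn (toI p.1) x y → Conn (toI p.1) x y' → p.2 y = p.2 y' → y = y') ∧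
      (∀ y, Conn (toI p.1) x y → Conn d (p.2 x) (p.2 y)) ∧
      (∀ y, Conn d (p.2 x) y → ∃ z, Conn (toI p.1) x z ∧ p.2 z = y) ∧
      (∀ i, ∀ t : Fin (a i) → ℕ, (∀ k, Conn (toI p.1) x (t k)) →
        (toI p.1 i t ↔ d i (fun k => p.2 (t k))))) ∧ Conn d (p.2 x) e := by
    funext p
    apply propext
    constructor
    · rintro ⟨h, h'⟩
      exact ⟨⟨h.inj, h.map, h.surj, h.rel⟩, h'⟩
    · rintro ⟨⟨h1, h2, h3, h4⟩, h'⟩
      exact ⟨⟨h1, h2, h3, h4⟩, h'⟩
  rw [e1]
  refine Measurable.and (Measurable.and ?_ (Measurable.and ?_ (Measurable.and ?_ ?_))) ?_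
  · refine Measurable.forall fun y => Measurable.forall fun y' => (hconn x y).imp
      ((hconn x y').imp (Measurable.imp ?_ measurable_const))
    refine hdc (fun g => g y = g y') {y, y'} fun g g' h h' => ?_
    rw [← h y (by simp), ← h y' (by simp)]
    exact h'
  · refine Measurable.forall fun y => (hconn x y).imp ?_
    refine hdc (fun g => Conn d (g x) (g y)) {x, y} fun g g' h h' => ?_
    rw [← h x (by simp), ← h y (by simp)]
    exact h'
  · refine Measurable.forall fun y => Measurable.imp ?_ (Measurable.exists fun z =>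
      (hconn x z).and ?_)
    · refine hdc (fun g => Conn d (g x) y) {x} fun g g' h h' => ?_
      rw [← h x (by simp)]
      exact h'
    · exact measurableSet_setOfPred.1 (hg z (measurableSet_singleton y))
  · refine Measurable.forall fun i => Measurable.forall fun t => (Measurable.forall fun k =>
      hconn x (t k)).imp ((hrel i t).iff ?_)
    refine hdc (fun g => d i (fun k => g (t k))) (Finset.univ.image t) fun g g' h h' => ?_
    have : (fun k => g' (t k)) = fun k => g (t k) := by
      funext k
      exact (h (t k) (Finset.mem_image_of_mem t (Finset.mem_univ k))).symm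
    rw [this]
    exact h'
  · refine hdc (fun g => Conn d (g x) e) {x} fun g g' h h' => ?_
    rw [← h x (by simp)]
    exact h'

theorem analytic_ceq (d : Interp a ℕ) (x e : ℕ) :
    AnalyticSet {c : Code a | CEq (toI c) x d e} := by
  have h := (meas_ciso d x e).analyticSet_image (f := (Prod.fst : Code a × (ℕ → ℕ) → Code a))
    measurable_fst
  have e1 : Prod.fst '' {p : Code a × (ℕ → ℕ) | CIso (toI p.1) d p.2 x ∧ Conn d (p.2 x) e} =
      {c : Code a | CEq (toI c) x d e} := by
    ext c
    constructor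
    · rintro ⟨p, hp, rfl⟩
      exact ⟨p.2, hp⟩
    · rintro ⟨g, hg⟩
      exact ⟨(c, g), hg, rfl⟩
  rwa [e1] at h

instance polish_code : PolishSpace (Code a) := {}

/-- The set of the members of `K` in which `x` has component type `n` is Borel. -/
theorem meas_type {K : Set (Code a)} (hK : MeasurableSet K) (f : ℕ → Code a × ℕ)
    (hf : ∀ c ∈ K, ∀ b, ∃ n, CEq (toI c) b (toI (f n).1) (f n).2) (x n : ℕ) :
    MeasurableSet {c | c ∈ K ∧ CEq (toI c) x (toI (f n).1) (f n).2} := by
  classical
  -- the sets of structures in which `x` has component type `n`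
  let A : ℕ → ℕ → Set (Code a) := fun x n =>
    {c | c ∈ K ∧ CEq (toI c) x (toI (f n).1) (f n).2}
  have hAa : ∀ x n, AnalyticSet (A x n) := by
    intro x n
    have h1 : AnalyticSet K := hK.analyticSet
    have h2 := analytic_ceq (toI (f n).1) x (f n).2
    have e1 : A x n = ⋂ b : Bool, (if b = true then K else
        {c : Code a | CEq (toI c) x (toI (f n).1) (f n).2}) := by
      ext c
      simp only [A, mem_ofPred_eq, mem_iInter]
      constructor
      · rintro ⟨h3, h4⟩ b
        cases b
        · simpa using h4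
        · simpa using h3
      · intro h3
        exact ⟨by simpa using h3 true, by simpa using h3 false⟩
    rw [e1]
    refine AnalyticSet.iInter fun b => ?_
    cases b
    · simpa using h2
    · simpa using h1
  have hAm : ∀ x n, MeasurableSet (A x n) := by
    intro x n
    refine (hAa x n).measurableSet_of_compl ?_
    have e1 : (A x n)ᶜ = ⋃ m : Option ℕ, (match m with
        | none => Kᶜ
        | some m => if CEq (toI (f n).1) (f n).2 (toI (f m).1) (f m).2 then ∅ else A x m) := by
      ext c
      simp only [mem_iUnion, mem_compl_iff]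
      constructor
      · intro h
        by_cases hc : c ∈ K
        · obtain ⟨m, hm⟩ := hf c hc x
          refine ⟨some m, ?_⟩
          have h1 : ¬ CEq (toI (f n).1) (f n).2 (toI (f m).1) (f m).2 := fun h1 =>
            h ⟨hc, hm.trans h1.symm⟩
          simp only [if_neg h1]
          exact ⟨hc, hm⟩
        · exact ⟨none, hc⟩
      · rintro ⟨m, hm⟩ ⟨h1, h2⟩
        cases m with
        | none => exact hm h1
        | some m =>
          simp only at hm
          split_ifs at hm with h3
          · exact hm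
          · exact h3 (h2.symm.trans hm.2)
    rw [e1]
    refine AnalyticSet.iUnion fun m => ?_
    cases m with
    | none => exact hK.compl.analyticSet
    | some m =>
      simp only
      split_ifs
      · exact analyticSet_empty
      · exact hAa x m
  exact hAm x n

theorem countable_iso {K : Set (Code a)} (hK : MeasurableSet K) (hP : ¬ Perf GIso K)
    (f : ℕ → Code a × ℕ)
    (hf : ∀ c ∈ K, ∀ b, ∃ n, CEq (toI c) b (toI (f n).1) (f n).2) :
    ∃ S : Set (Code a), S.Countable ∧ ∀ c ∈ K, ∃ c' ∈ S, GIso (toI c) (toI c') := by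
  classical
  let A : ℕ → ℕ → Set (Code a) := fun x n =>
    {c | c ∈ K ∧ CEq (toI c) x (toI (f n).1) (f n).2}
  have hAm : ∀ x n, MeasurableSet (A x n) := meas_type hK f hf
  -- multiplicities
  let J : K → (ℕ × ℕ → Bool) := fun c q => decide (∃ v : Fin (q.2 + 1) → ℕ,
    (∀ i j, Conn (toI c.1) (v i) (v j) → i = j) ∧
      ∀ i, CEq (toI c.1) (v i) (toI (f q.1).1) (f q.1).2)
  have hJ : Measurable J := by
    refine measurable_pi_lambda _ fun q => measurable_to_bool ?_
    have e1 : (fun c => J c q) ⁻¹' {true} = {c : K | ∃ v : Fin (q.2 + 1) → ℕ,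
        (∀ i j, Conn (toI c.1) (v i) (v j) → i = j) ∧ ∀ i, c.1 ∈ A (v i) q.1} := by
      ext c
      simp only [J, mem_preimage, mem_singleton_iff, decide_eq_true_eq, mem_ofPred_eq, A]
      refine exists_congr fun v => and_congr_right fun _ => forall_congr' fun i => ?_
      exact ⟨fun h => ⟨c.2, h⟩, fun h => h.2⟩
    rw [e1]
    refine measurableSet_setOfPred.2 ?_
    refine Measurable.exists fun v => Measurable.and ?_ ?_
    · refine Measurable.forall fun i => Measurable.forall fun j => Measurable.imp ?_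
        measurable_const
      exact measurableSet_setOfPred.1 (measurable_subtype_coe (measurableSet_conn (v i) (v j)))
    · refine Measurable.forall fun i => ?_
      exact measurableSet_setOfPred.1 (measurable_subtype_coe (hAm (v i) q.1))
  have hJE : ∀ c c' : K, GIso (toI c.1) (toI c'.1) → ∀ q, J c q = true → J c' q = true := by
    rintro c c' ⟨g, hg⟩ q h
    simp only [J, decide_eq_true_eq] at h ⊢
    obtain ⟨v, h1, h2⟩ := h
    refine ⟨fun i => g (v i), fun i j h => ?_, fun i => ?_⟩
    · exact h1 i j ((GIso.conn_iff g hg _ _).2 h)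
    · exact (CEq.of_ciso (GIso.ciso g hg (v i))).symm.trans (h2 i)
  have hJc : (range J).Countable := by
    by_contra hc
    refine hP (perf_of_uncountable hK (ι := Unit) (Z := ℕ × ℕ → Bool) (fun _ => J)
      (fun _ => hJ) (fun c c' h _ => ⟨(), ?_⟩) (fun h => hc (h.mono ?_)))
    · funext q
      rw [Bool.eq_iff_iff]
      exact ⟨hJE c c' h q, hJE c' c h.symm q⟩
    · rintro _ ⟨c, rfl⟩
      exact ⟨(), c, rfl⟩
  obtain ⟨S, hS, hS2⟩ := exists_reps J hJc
  refine ⟨Subtype.val '' S, hS.image _, fun c hc => ?_⟩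
  obtain ⟨c', hc', hcc⟩ := hS2 ⟨c, hc⟩
  refine ⟨c'.1, ⟨c', hc', rfl⟩, ?_⟩
  -- gluing
  let St : Setoid ℕ := ⟨fun n m => CEq (toI (f n).1) (f n).2 (toI (f m).1) (f m).2,
    fun n => CEq.refl _ _, CEq.symm, CEq.trans⟩
  have hτ : ∀ c : K, ∃ τ : Comp (toI c.1) → Quotient St, ∀ κ q, τ κ = q ↔
      CEq (toI c.1) κ.out (toI (f q.out).1) (f q.out).2 := by
    intro c
    choose n hn using fun κ : Comp (toI c.1) => hf c.1 c.2 κ.out
    refine ⟨fun κ => Quotient.mk St (n κ), fun κ q => ?_⟩
    constructor
    · rintro rfl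
      have h1 : CEq (toI (f (Quotient.mk St (n κ)).out).1) (f (Quotient.mk St (n κ)).out).2
          (toI (f (n κ)).1) (f (n κ)).2 :=
        (Quotient.eq (r := St)).1 (Quotient.out_eq (Quotient.mk St (n κ)))
      exact (hn κ).trans h1.symm
    · intro h
      rw [← Quotient.out_eq q]
      exact Quotient.sound ((hn κ).symm.trans h)
  obtain ⟨τ, h1⟩ := hτ ⟨c, hc⟩
  obtain ⟨τ', h1'⟩ := hτ c'
  have h3 : ∀ q, Nonempty ({κ : Comp (toI c) // τ κ = q} ≃
      {κ : Comp (toI c'.1) // τ' κ = q}) := by
    intro q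
    refine equiv_of_emb fun k => ?_
    have e1 : {κ : Comp (toI c) // τ κ = q} =
        {κ : Comp (toI c) // CEq (toI c) κ.out (toI (f q.out).1) (f q.out).2} := by
      congr 1
      funext κ
      exact propext (h1 κ q)
    have e2 : {κ : Comp (toI c'.1) // τ' κ = q} =
        {κ : Comp (toI c'.1) // CEq (toI c'.1) κ.out (toI (f q.out).1) (f q.out).2} := by
      congr 1
      funext κ
      exact propext (h1' κ q)
    rw [e1, e2, ← emb_iff (toI c) (fun x => CEq (toI c) x (toI (f q.out).1) (f q.out).2)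
      (fun x y hxy h => (CEq.of_conn hxy.symm).trans h) k,
      ← emb_iff (toI c'.1) (fun x => CEq (toI c'.1) x (toI (f q.out).1) (f q.out).2)
      (fun x y hxy h => (CEq.of_conn hxy.symm).trans h) k]
    have h4 := congrFun hcc (q.out, k)
    simp only [J, decide_eq_decide] at h4
    exact h4.symm
  let e : Comp (toI c) ≃ Comp (toI c'.1) :=
    ((Equiv.sigmaFiberEquiv τ).symm.trans
      (Equiv.sigmaCongrRight fun q => (h3 q).some)).trans (Equiv.sigmaFiberEquiv τ')
  have he : ∀ κ, τ' (e κ) = τ κ := by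
    intro κ
    exact ((h3 (τ κ)).some ⟨κ, rfl⟩).2
  refine glue e fun κ => ?_
  have h5 := (h1 κ (τ κ)).1 rfl
  have h6 := (h1' (e κ) (τ κ)).1 (he κ)
  exact h5.trans h6.symm

end Pool.Agent.H623R2.VE
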