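import Pool.Agent.H623R2.VE.Mult

set_option autoImplicit false
set_option linter.unusedSectionVars false

/-!
The dichotomy for the members of an invariant Borel class that are isomorphic to their own
infinite disjoint powers, and for classes closed under infinite disjoint powers.
-/

namespace Pool.Agent.H623R2.VE

open Set MeasureTheory

variable {Idx : Type} [Countable Idx] {a : Idx → ℕ}

theorem CovE.trans {I J M : Interp a ℕ} (h : CovE I J) (h' : CovE J M) : CovE I M := by
  constructor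
  · intro m
    obtain ⟨m', h1⟩ := h.1 m
    obtain ⟨m'', h2⟩ := h'.1 m'
    exact ⟨m'', h1.trans h2⟩
  · intro m
    obtain ⟨m', h1⟩ := h'.2 m
    obtain ⟨m'', h2⟩ := h.2 m'
    exact ⟨m'', h1.trans h2⟩

theorem CovE.symm {I J : Interp a ℕ} (h : CovE I J) : CovE J I := ⟨h.2, h.1⟩

theorem covE_Pw (I : Interp a ℕ) : CovE I (Pw I) :=
  ⟨fun m => ⟨Nat.pair 0 m, ceq_Pw' I 0 m⟩, fun m => ⟨_, ceq_Pw I m⟩⟩

/-- The setoid of component types. -/
def tySetoid (a : Idx → ℕ) : Setoid (Interp a ℕ × ℕ) :=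
  ⟨fun p q => CEq p.1 p.2 q.1 q.2, fun _ => CEq.refl _ _, CEq.symm, CEq.trans⟩

/-- Structures in which each component has infinitely many copies are determined by the types of
their components. -/
theorem cov_giso {I J : Interp a ℕ} (hI : Inf I) (hJ : Inf J) (h : CovE I J) : GIso I J := by
  classical
  let Z : Type := Quotient (tySetoid a)
  let τ : ∀ M : Interp a ℕ, Comp M → Z := fun M κ => Quotient.mk (tySetoid a) (M, κ.out)
  have hτ : ∀ (M M' : Interp a ℕ) (κ : Comp M) (κ' : Comp M'), τ M κ = τ M' κ' ↔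
      CEq M κ.out M' κ'.out := fun M M' κ κ' => Quotient.eq (r := tySetoid a)
  have hout : ∀ (M : Interp a ℕ) (x : ℕ), Conn M (Quotient.mk (compSetoid M) x).out x :=
    fun M x => (Quotient.eq (r := compSetoid M)).1 (Quotient.out_eq _)
  have hinf : ∀ (M : Interp a ℕ), Inf M → ∀ κ : Comp M, Infinite {κ' : Comp M // τ M κ' = τ M κ} := by
    intro M hM κ
    rw [← not_finite_iff_infinite]
    intro hfin
    have := Fintype.ofFinite {κ' : Comp M // τ M κ' = τ M κ}
    obtain ⟨m', h1, h2⟩ := hM κ.out (Finset.univ.image fun q : {κ' : Comp M // τ M κ' = τ M κ} =>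
      q.1.out)
    have h3 : τ M (Quotient.mk (compSetoid M) m') = τ M κ := by
      rw [hτ]
      exact (CEq.of_conn (hout M m')).trans h1.symm
    refine h2 _ (Finset.mem_image.2 ⟨⟨Quotient.mk (compSetoid M) m', h3⟩, Finset.mem_univ _, rfl⟩)
      (hout M m')
  have hcov : ∀ (M M' : Interp a ℕ), Cov M M' → ∀ κ : Comp M, ∃ κ' : Comp M', τ M' κ' = τ M κ := by
    intro M M' hMM κ
    obtain ⟨m', hm'⟩ := hMM κ.out
    refine ⟨Quotient.mk (compSetoid M') m', ?_⟩
    rw [hτ]
    exact (CEq.of_conn (hout M' m')).trans hm'.symm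
  have h3 : ∀ q, Nonempty ({κ : Comp I // τ I κ = q} ≃ {κ : Comp J // τ J κ = q}) := by
    intro q
    by_cases hq : ∃ κ, τ I κ = q
    · obtain ⟨κ, rfl⟩ := hq
      obtain ⟨κ', hκ'⟩ := hcov I J h.1 κ
      have h4 := hinf I hI κ
      have h5 := hinf J hJ κ'
      rw [hκ'] at h5
      exact nonempty_equiv_of_countable
    · have h4 : IsEmpty {κ : Comp I // τ I κ = q} := ⟨fun κ => hq ⟨κ.1, κ.2⟩⟩
      have h5 : IsEmpty {κ : Comp J // τ J κ = q} := by
        refine ⟨fun κ => hq ?_⟩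
        obtain ⟨κ', hκ'⟩ := hcov J I h.2 κ.1
        exact ⟨κ', hκ'.trans κ.2⟩
      exact ⟨Equiv.equivOfIsEmpty _ _⟩
  let e : Comp I ≃ Comp J :=
    ((Equiv.sigmaFiberEquiv (τ I)).symm.trans
      (Equiv.sigmaCongrRight fun q => (h3 q).some)).trans (Equiv.sigmaFiberEquiv (τ J))
  have he : ∀ κ, τ J (e κ) = τ I κ := by
    intro κ
    exact ((h3 (τ I κ)).some ⟨κ, rfl⟩).2
  exact glue e fun κ => (hτ _ _ _ _).1 (he κ).symm

theorem giso_Pw_iff (I J : Interp a ℕ) : GIso (Pw I) (Pw J) ↔ CovE I J := by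
  constructor
  · intro h
    exact (covE_Pw I).trans (h.covE.trans (covE_Pw J).symm)
  · intro h
    exact cov_giso (inf_Pw I) (inf_Pw J) ((covE_Pw I).symm.trans (h.trans (covE_Pw J)))

/-- The members of `K` have countably many sets of component types. -/
theorem countable_cov {K : Set (Code a)} (hK : MeasurableSet K) (hP : ¬ Perf CovE K)
    (f : ℕ → Code a × ℕ)
    (hf : ∀ c ∈ K, ∀ b, ∃ n, CEq (toI c) b (toI (f n).1) (f n).2) :
    ∃ S : Set (Code a), S.Countable ∧ ∀ c ∈ K, ∃ c' ∈ S, CovE (toI c) (toI c') := by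
  classical
  let A : ℕ → ℕ → Set (Code a) := fun x n =>
    {c | c ∈ K ∧ CEq (toI c) x (toI (f n).1) (f n).2}
  have hAm : ∀ x n, MeasurableSet (A x n) := meas_type hK f hf
  let J : K → (ℕ → Bool) := fun c n => decide (∃ x, CEq (toI c.1) x (toI (f n).1) (f n).2)
  have hJ : Measurable J := by
    refine measurable_pi_lambda _ fun n => measurable_to_bool ?_
    have e1 : (fun c => J c n) ⁻¹' {true} = ⋃ x, {c : K | c.1 ∈ A x n} := by
      ext c
      simp only [J, mem_preimage, mem_singleton_iff, decide_eq_true_eq, mem_ofPred_eq, A,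
        mem_iUnion]
      exact exists_congr fun x => ⟨fun h => ⟨c.2, h⟩, fun h => h.2⟩
    rw [e1]
    exact MeasurableSet.iUnion fun x => measurable_subtype_coe (hAm x n)
  have hJE : ∀ c c' : K, Cov (toI c.1) (toI c'.1) → ∀ n, J c n = true → J c' n = true := by
    intro c c' h n hn
    simp only [J, decide_eq_true_eq] at hn ⊢
    obtain ⟨x, hx⟩ := hn
    obtain ⟨y, hy⟩ := h x
    exact ⟨y, hy.symm.trans hx⟩
  have hJc : (range J).Countable := by
    by_contra hc
    refine hP (perf_of_uncountable hK (ι := Unit) (Z := ℕ → Bool) (fun _ => J)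
      (fun _ => hJ) (fun c c' h _ => ⟨(), ?_⟩) (fun h => hc (h.mono ?_)))
    · funext n
      rw [Bool.eq_iff_iff]
      exact ⟨hJE c c' h.1 n, hJE c' c h.2 n⟩
    · rintro _ ⟨c, rfl⟩
      exact ⟨(), c, rfl⟩
  obtain ⟨S, hS, hS2⟩ := exists_reps J hJc
  refine ⟨Subtype.val '' S, hS.image _, fun c hc => ?_⟩
  obtain ⟨c', hc', hcc⟩ := hS2 ⟨c, hc⟩
  refine ⟨c'.1, ⟨c', hc', rfl⟩, ?_⟩
  have key : ∀ d d' : K, J d = J d' → Cov (toI d.1) (toI d'.1) := by
    intro d d' h m
    obtain ⟨n, hn⟩ := hf d.1 d.2 m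
    have h1 := congrFun h n
    simp only [J, decide_eq_decide] at h1
    obtain ⟨x, hx⟩ := h1.1 ⟨m, hn⟩
    exact ⟨x, hn.trans hx.symm⟩
  exact ⟨key ⟨c, hc⟩ c' hcc.symm, key c' ⟨c, hc⟩ hcc⟩

/-- The code of the infinite disjoint power. -/
noncomputable def pwc (c : Code a) : Code a := ofI (Pw (toI c))

theorem toI_pwc (c : Code a) : toI (pwc c) = Pw (toI c) := toI_ofI _

theorem continuous_pwc : Continuous (pwc : Code a → Code a) := by
  classical
  refine continuous_pi fun i => continuous_pi fun t => ?_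
  have e : (fun c : Code a => pwc c i t) = fun c : Code a =>
      (decide (∀ k l, (Nat.unpair (t k)).1 = (Nat.unpair (t l)).1) &&
        c i (fun k => (Nat.unpair (t k)).2)) := by
    funext c
    rw [Bool.eq_iff_iff]
    simp only [pwc, ofI, Pw, toI, Bool.and_eq_true, decide_eq_true_eq]
  rw [e]
  have h1 : Continuous fun c : Code a => c i (fun k => (Nat.unpair (t k)).2) :=
    (continuous_apply _).comp (continuous_apply i)
  exact (continuous_of_discreteTopology (f := fun b : Bool =>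
    (decide (∀ k l, (Nat.unpair (t k)).1 = (Nat.unpair (t l)).1) && b))).comp h1

/-- The dichotomy for classes closed under infinite disjoint powers. -/
theorem dich_closed {K : Set (Code a)} (hK : MeasurableSet K)
    (hinv : ∀ c c' : Code a, GIso (toI c) (toI c') → c ∈ K → c' ∈ K)
    (hpw : ∀ c ∈ K, pwc c ∈ K) :
    (∃ S : Set (Code a), S.Countable ∧ ∀ c ∈ K, ∃ c' ∈ S, GIso (toI c) (toI c')) ∨
      Perf GIso K := by
  by_cases hP : Perf GIso K
  · exact Or.inr hP
  left
  obtain ⟨f, hf⟩ := core hK hinv hpw (fun ⟨g, h1, h2, h3⟩ => hP ⟨g, h1, h2, fun x x' h =>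
    h3 x x' h.covE⟩)
  exact countable_iso hK hP f hf

/-- The dichotomy for the members of a Borel class that are isomorphic to their own infinite
disjoint powers. -/
theorem dich_self {B : Set (Code a)} (hB : MeasurableSet B)
    (hinv : ∀ c c' : Code a, GIso (toI c) (toI c') → c ∈ B → c' ∈ B) :
    (∃ S : Set (Code a), S.Countable ∧ ∀ c ∈ B, GIso (toI c) (Pw (toI c)) →
      ∃ c' ∈ S, GIso (toI c) (toI c')) ∨
    ∃ f : (ℕ → Bool) → Code a, Continuous f ∧
      (∀ x, f x ∈ B ∧ GIso (toI (f x)) (Pw (toI (f x)))) ∧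
      ∀ x x', GIso (toI (f x)) (toI (f x')) → x = x' := by
  let K : Set (Code a) := pwc ⁻¹' B
  have hK : MeasurableSet K := continuous_pwc.measurable hB
  have hKi : ∀ c c' : Code a, GIso (toI c) (toI c') → c ∈ K → c' ∈ K := by
    intro c c' h hc
    refine hinv (pwc c) (pwc c') ?_ hc
    rw [toI_pwc, toI_pwc, giso_Pw_iff]
    exact h.covE
  have hpp : ∀ I : Interp a ℕ, GIso (Pw I) (Pw (Pw I)) := by
    intro I
    rw [giso_Pw_iff]
    exact covE_Pw I
  have hKp : ∀ c ∈ K, pwc c ∈ K := by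
    intro c hc
    refine hinv (pwc c) (pwc (pwc c)) ?_ hc
    rw [toI_pwc, toI_pwc, toI_pwc]
    exact hpp _
  by_cases hP : Perf CovE K
  · right
    obtain ⟨f, h1, h2, h3⟩ := hP
    refine ⟨fun x => pwc (f x), continuous_pwc.comp h1, fun x => ⟨h2 x, ?_⟩, fun x x' h => ?_⟩
    · rw [toI_pwc]
      exact hpp _
    · rw [toI_pwc, toI_pwc, giso_Pw_iff] at h
      exact h3 x x' h
  · left
    obtain ⟨f, hf⟩ := core hK hKi hKp hP
    obtain ⟨S, hS, hS2⟩ := countable_cov hK hP f hf
    refine ⟨pwc '' S, hS.image _, fun c hc hself => ?_⟩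
    have hcK : c ∈ K := by
      refine hinv c (pwc c) ?_ hc
      rw [toI_pwc]
      exact hself
    obtain ⟨c', hc', h⟩ := hS2 c hcK
    refine ⟨pwc c', ⟨c', hc', rfl⟩, ?_⟩
    rw [toI_pwc]
    exact hself.trans ((giso_Pw_iff _ _).2 h)

end Pool.Agent.H623R2.VE
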